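import Pool.Agent.W_bbc525_e2.Ex

/-!
# The lower end of the densities, in terms of the degrees
-/

set_option autoImplicit false

namespace Pool.Agent.W_bbc525_e2

open MeasureTheory Finset Pool.Agent.W_MP_bbc525_pr Pool.Agent.W_bbc525_h89 Pool.Agent.W_bbc525_td
  Pool.Agent.W_bbc525_ends

/-- sums of bounded kernels -/
theorem BK.fsum {ι : Type*} (s : Finset ι) {f : ι → unitInterval → unitInterval → ℝ}
    (hf : ∀ i ∈ s, BK (f i)) :
    BK (fun x y => ∑ i ∈ s, f i x y) ∧
      ∫ x, ∫ y, ∑ i ∈ s, f i x y = ∑ i ∈ s, ∫ x, ∫ y, f i x y := by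
  classical
  induction s using Finset.induction_on with
  | empty =>
    refine ⟨?_, ?_⟩
    · simpa using BK.const 0
    · simp
  | insert i s hi ih =>
    obtain ⟨h1, h2⟩ := ih (fun j hj => hf j (Finset.mem_insert_of_mem hj))
    have h3 := hf i (Finset.mem_insert_self i s)
    refine ⟨?_, ?_⟩
    · have h4 := h3.add h1
      have e : (fun x y => ∑ j ∈ insert i s, f j x y) =
          fun x y => f i x y + ∑ j ∈ s, f j x y := by
        funext x y
        rw [Finset.sum_insert hi]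
      rw [e]
      exact h4
    · simp only [Finset.sum_insert hi]
      rw [BK.int_add h3 h1, h2]

section graph

variable {V : Type*} [Fintype V] [DecidableEq V] {H : SimpleGraph V} [DecidableRel H.Adj]

theorem Kh_low {a b : ℕ} {q : ℝ} (hab : a ≤ b) (ha : 4 ≤ a) (hq : 0 < q) (hq1 : q < 1)
    (h : q * ((a : ℝ) + 3) ≤ a - 3) : q * ((b : ℝ) + 3) ≤ b - 3 := by
  have h1 : (a : ℝ) ≤ b := by exact_mod_cast hab
  nlinarith

/-- the pointwise inequality of the graph -/
theorem graph_pt (hE : 0 < H.edgeFinset.card) {p q : ℝ} (hp : 0 < p) (hpq : p ≤ q)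
    (hq1 : q < 1) {a : ℕ} (ha : 4 ≤ a) (hqa : q * (a + 3) ≤ a - 3)
    (hdeg : ∀ e ∈ H.edgeFinset, mdeg H e = 1 ∨ a ≤ mdeg H e) (hN : Ncond H p q)
    {X : ℝ} (hX : 0 ≤ X) (hX1 : X ≤ 1 / q) :
    1 / 99 * ((1 / 2) * (q / (1 - q)) / (1 + q / (1 - q) / 3)) * max (1 - X) 0 ^ 2 +
      q * (logit q - logit p) / H.edgeFinset.card * ∑ e ∈ H.edgeFinset,
        lossf (mdeg H e) (ndeg H e) (max (1 - X) 0) / (mdeg H e : ℝ) ≤
      dd q X - q * (logit q - logit p) * PsiV H X := by
  have hq : 0 < q := lt_of_lt_of_le hp hpq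
  have h1q : 0 < 1 - q := by linarith
  have hE' : (0:ℝ) < H.edgeFinset.card := by exact_mod_cast hE
  have hpsi := Ncond.psi hE hp hpq hq1 hN
  obtain ⟨T, hT⟩ : ∃ T, T = q * (logit q - logit p) := ⟨_, rfl⟩
  have hT0 : 0 ≤ T := by
    rw [hT]
    exact mul_nonneg hq.le (logit_mono hp hpq hq1)
  rw [← hT] at hpsi ⊢
  rcases le_or_gt 1 X with h | h
  · rw [max_eq_right (by linarith)]
    have h1 := hpsi X hX hX1
    simp only [lossf_zero, zero_div, Finset.sum_const_zero, mul_zero, ne_eq, OfNat.ofNat_ne_zero,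
      not_false_eq_true, zero_pow]
    linarith
  · rw [max_eq_left (by linarith)]
    obtain ⟨t, ht⟩ : ∃ t, t = 1 - X := ⟨_, rfl⟩
    have hXt : X = 1 - t := by rw [ht]; ring
    have ht0 : 0 ≤ t := by rw [ht]; linarith
    have ht1 : t ≤ 1 := by rw [ht]; linarith
    rw [← ht]
    obtain ⟨s, hs⟩ : ∃ s, s = q / (1 - q) := ⟨_, rfl⟩
    have hs0 : 0 < s := by
      rw [hs]
      exact div_pos hq h1q
    have hdd := dd_lower hq hq1 ht0 ht1
    rw [← hs] at hdd ⊢
    have hdd0 : 0 ≤ dd q (1 - t) := le_trans (by positivity) hdd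
    have hdd1 : (1 / 2) * s / (1 + s / 3) * t ^ 2 ≤ dd q (1 - t) := by
      refine le_trans ?_ hdd
      rw [div_mul_eq_mul_div]
      apply div_le_div_of_nonneg_left (by positivity) (by positivity)
      have : s * t ≤ s * 1 := mul_le_mul_of_nonneg_left ht1 hs0.le
      linarith
    obtain ⟨L, hL⟩ : ∃ L, L = Real.log (1 / q) := ⟨_, rfl⟩
    have hL0 : 0 < L := by
      rw [hL]
      apply Real.log_pos
      rw [lt_div_iff₀ hq]
      linarith
    -- the vertex condition at `1`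
    have hψ := hpsi (1 / q) (by positivity) le_rfl
    have hddx : dd q (1 / q) = L := by
      rw [hL]
      unfold dd relEnt
      have : q * (1 / q) = 1 := by
        field_simp
      rw [this]
      simp
    rw [hddx, PsiV_gg hE] at hψ
    -- the sum over the edges
    have hsum : (∑ e ∈ H.edgeFinset, lossf (mdeg H e) (ndeg H e) t / (mdeg H e : ℝ) +
        ∑ e ∈ H.edgeFinset, (gg (mdeg H e) X + gg (ndeg H e) X) / 2) * L ≤
        98 / 99 * (∑ e ∈ H.edgeFinset, (gg (mdeg H e) (1 / q) + gg (ndeg H e) (1 / q)) / 2) *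
          dd q X := by
      rw [← Finset.sum_add_distrib, Finset.sum_mul, Finset.mul_sum, Finset.sum_mul]
      apply Finset.sum_le_sum
      intro e he
      have hb := ndeg_pos H he
      have hba := ndeg_le_mdeg H e
      rcases hdeg e he with h1 | h1
      · have h2 : ndeg H e = 1 := by omega
        rw [h1, h2]
        have h3 : lossf 1 1 t = 0 := by
          unfold lossf
          simp
        have h4 : ∀ Y, gg 1 Y = 0 := fun Y => by
          unfold gg
          simp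
        rw [h3, h4, h4]
        simp
      · have h2 := edge_pt hb hba (ha.trans h1) hq hq1 (Kh_low h1 ha hq hq1 hqa) ht0 ht1
        rw [← hL, ← hXt] at h2
        exact h2
    rw [PsiV_gg hE]
    obtain ⟨A, hA⟩ : ∃ A, A = ∑ e ∈ H.edgeFinset,
      lossf (mdeg H e) (ndeg H e) t / (mdeg H e : ℝ) := ⟨_, rfl⟩
    obtain ⟨B, hB⟩ : ∃ B, B = ∑ e ∈ H.edgeFinset, (gg (mdeg H e) X + gg (ndeg H e) X) / 2 :=
      ⟨_, rfl⟩
    obtain ⟨C, hC⟩ : ∃ C, C = ∑ e ∈ H.edgeFinset,
      (gg (mdeg H e) (1 / q) + gg (ndeg H e) (1 / q)) / 2 := ⟨_, rfl⟩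
    rw [← hA, ← hB, ← hC] at hsum
    rw [← hC] at hψ
    rw [← hA, ← hB]
    rw [← hXt] at hdd0 hdd1
    have hTE : 0 ≤ T / (H.edgeFinset.card : ℝ) := div_nonneg hT0 hE'.le
    have h1 := mul_le_mul_of_nonneg_left hsum hTE
    have h2 := mul_le_mul_of_nonneg_right hψ (by positivity : 0 ≤ 98 / 99 * dd q X)
    have h3 : T / (H.edgeFinset.card : ℝ) * (A + B) * L ≤ (98 / 99 * dd q X) * L := by
      have e1 : T / (H.edgeFinset.card : ℝ) * (A + B) * L =
        T / (H.edgeFinset.card : ℝ) * ((A + B) * L) := by ring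
      have e2 : T / (H.edgeFinset.card : ℝ) * (98 / 99 * C * dd q X) =
        T * (1 / (H.edgeFinset.card : ℝ) * C) * (98 / 99 * dd q X) := by ring
      rw [e1]
      rw [e2] at h1
      linarith
    have h4 := le_of_mul_le_mul_right h3 hL0
    have e3 : T * (1 / (H.edgeFinset.card : ℝ) * B) = T / (H.edgeFinset.card : ℝ) * B := by ring
    rw [e3]
    have h5 : 1 / 99 * ((1 / 2) * s / (1 + s / 3) * t ^ 2) ≤ 1 / 99 * dd q X :=
      mul_le_mul_of_nonneg_left hdd1 (by norm_num)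
    have e4 : 1 / 99 * ((1 / 2) * s / (1 + s / 3)) * t ^ 2 =
      1 / 99 * ((1 / 2) * s / (1 + s / 3) * t ^ 2) := by ring
    rw [e4]
    linarith

/-- **The lower end, degrees `a` or more.** -/
theorem small_end2 (hE : 0 < H.edgeFinset.card) {p q : ℝ} (hp : 0 < p) (hpq : p ≤ q)
    (hq1 : q < 1) {a : ℕ} (ha : 4 ≤ a) (hqa : q * (a + 3) ≤ a - 3)
    (hdeg : ∀ e ∈ H.edgeFinset, mdeg H e = 1 ∨ a ≤ mdeg H e) (hN : Ncond H p q) :
    UniqueMinimizer H p q := by
  intro W hW hcost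
  have hq : 0 < q := lt_of_lt_of_le hp hpq
  have hp1 : p < 1 := by linarith
  have h1q : 0 < 1 - q := by linarith
  have hE' : (0:ℝ) < H.edgeFinset.card := by exact_mod_cast hE
  have hstar := star_ineq hE hp hpq hq1 W hcost
  obtain ⟨hpos, hlog⟩ := feas_log hq W hW
  have hgpt := fun X (hX : 0 ≤ X) (hX1 : X ≤ 1 / q) =>
    graph_pt hE hp hpq hq1 ha hqa hdeg hN hX hX1
  obtain ⟨T, hT⟩ : ∃ T, T = q * (logit q - logit p) := ⟨_, rfl⟩
  have hT0 : 0 ≤ T := by
    rw [hT]
    exact mul_nonneg hq.le (logit_mono hp hpq hq1)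
  simp only [← hT] at hstar hgpt
  have hTE : 0 ≤ T / (H.edgeFinset.card : ℝ) := div_nonneg hT0 hE'.le
  obtain ⟨s, hs⟩ : ∃ s, s = q / (1 - q) := ⟨_, rfl⟩
  have hs0 : 0 < s := by
    rw [hs]
    exact div_pos hq h1q
  simp only [← hs] at hgpt
  obtain ⟨c, hc⟩ : ∃ c, c = 1 / 99 * ((1 / 2) * s / (1 + s / 3)) := ⟨_, rfl⟩
  have hc0 : 0 < c := by
    rw [hc]
    positivity
  simp only [← hc] at hgpt
  set D := dfc W q with hD
  have hD0 : 0 ≤ D := dfc_nonneg
  have hdf := BK.dfk (W := W) hq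
  have hdf0 : ∀ x y, 0 ≤ max (1 - W.W x y / q) 0 := fun _ _ => le_max_right _ _
  have hdf2 : BK (fun x y => max (1 - W.W x y / q) 0 ^ 2) := hdf.pow 2
  have hls : ∀ e ∈ H.edgeFinset, BK (fun x y =>
      lossf (mdeg H e) (ndeg H e) (max (1 - W.W x y / q) 0) / (mdeg H e : ℝ)) := by
    intro e _
    have h1 := BK.lossf' hdf hdf0 (mdeg H e) (ndeg H e)
    have h2 := BK.const_mul (1 / (mdeg H e : ℝ)) h1
    have e : (fun x y => lossf (mdeg H e) (ndeg H e) (max (1 - W.W x y / q) 0) /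
        (mdeg H e : ℝ)) = fun x y => 1 / (mdeg H e : ℝ) *
        lossf (mdeg H e) (ndeg H e) (max (1 - W.W x y / q) 0) := by
      funext x y
      ring
    rw [e]
    exact h2
  obtain ⟨hsB, hsI⟩ := BK.fsum H.edgeFinset hls
  have hLI : ∀ e ∈ H.edgeFinset, ∫ x, ∫ y,
      lossf (mdeg H e) (ndeg H e) (max (1 - W.W x y / q) 0) / (mdeg H e : ℝ) =
      (∫ x, ∫ y, lossf (mdeg H e) (ndeg H e) (max (1 - W.W x y / q) 0)) / (mdeg H e : ℝ) := by
    intro e _
    simp only [integral_div]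
  -- the excess
  have hexc : ∑ e ∈ H.edgeFinset, Exc W q (mdeg H e) (ndeg H e) / (mdeg H e : ℝ) ≤
      ∑ e ∈ H.edgeFinset, ((mix W (mdeg H e) (ndeg H e) / q ^ mdeg H e - 1) / (mdeg H e : ℝ) -
        Real.log (mix W (mdeg H e) (ndeg H e) / q ^ mdeg H e) / (mdeg H e : ℝ) +
        ∫ x, ∫ y, lossf (mdeg H e) (ndeg H e) (max (1 - W.W x y / q) 0) / (mdeg H e : ℝ)) := by
    apply Finset.sum_le_sum
    intro e he
    rw [hLI e he]
    have ha : (0 : ℝ) < mdeg H e := by exact_mod_cast mdeg_pos H he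
    have h1 := exc2 hq (ndeg_pos H he) (ndeg_le_mdeg H e) (hpos e he)
    have h2 := div_le_div_of_nonneg_right h1 ha.le
    refine h2.trans (le_of_eq ?_)
    ring
  rw [Finset.sum_add_distrib, Finset.sum_sub_distrib, ← hsI] at hexc
  have h1 := mul_le_mul_of_nonneg_left hexc hTE
  -- the lower bound
  have hint := BK.int_mono ((BK.const_mul c hdf2).add
      (BK.const_mul (T / (H.edgeFinset.card : ℝ)) hsB))
      ((BK.dd hq hq1 W).sub (BK.const_mul T (BK.psiV (H := H) hq W)))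
      (fun x y => hgpt (W.W x y / q) (div_nonneg (W.nonneg _ _) hq.le) (XX_le hq x y))
  rw [BK.int_add (BK.const_mul c hdf2) (BK.const_mul (T / (H.edgeFinset.card : ℝ)) hsB),
    BK.int_mul, BK.int_mul] at hint
  have hsq := hdf.sq_int
  change D ^ 2 ≤ _ at hsq
  have hDz : D = 0 := by
    by_contra hne
    have hDp : 0 < D := lt_of_le_of_ne hD0 (Ne.symm hne)
    have h2 : 0 < c * D ^ 2 := by positivity
    have h3 := mul_le_mul_of_nonneg_left hsq hc0.le
    have h4 := mul_nonneg hTE hlog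
    simp only [mul_add, mul_sub] at h1 
    linarith
  -- the mean
  have hmean : q ≤ W.mean := by
    have h3 := BK.int_mono ((BK.const 1).sub (BK.XX (W := W) hq)) hdf
      (fun x y => le_max_left _ _)
    rw [BK.int_sub (BK.const 1) (BK.XX (W := W) hq)] at h3
    have h4 : ∫ x, ∫ y, max (1 - W.W x y / q) 0 = 0 := hDz
    rw [h4] at h3
    have h5 : ∫ x, ∫ y, W.W x y / q = W.mean / q := by
      have := YY_mom (W := W) hq 1
      unfold YY at this
      simpa only [pow_one, Graphon.mom_one] using this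
    rw [h5] at h3
    simp only [integral_const, probReal_univ, smul_eq_mul, one_mul] at h3
    have h6 : 1 ≤ W.mean / q := by linarith
    rwa [le_div_iff₀ hq, one_mul] at h6
  have h3 := cost_shift hp hp1 hq hq1 W
  have h4 : 0 ≤ (logit q - logit p) * (W.mean - q) :=
    mul_nonneg (logit_mono hp hpq hq1) (by linarith)
  apply full_unique_self H hq hq1 W hW
  rw [relEnt_self hq hq1]
  linarith

end graph

end Pool.Agent.W_bbc525_e2
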