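import Pool.Agent.W_bbc525_e2.H0

/-!
# Lower bound for the relative entropy below the density

`dd q X = relEnt q (q X)`. With `s = q/(1-q)` and `0 ≤ t ≤ 1`:
`(1/2) s t^2 / (1 + s t/3) ≤ dd q (1 - t)`. (Numerically checked.)

PROOF. `dd q (1 - t) = q (1 - t) log (1 - t) + (1 - q X) log ((1 - q X)/(1 - q))`, `X = 1 - t`, and
`1 - q X = (1 - q)(1 + s t)`, so
`dd q (1 - t) = q (1 - t) log (1 - t) + (1 - q) (1 + s t) log (1 + s t)`
(`dd_eq` in W_bbc525_td/Base.lean for `0 < X < 1/q`; the case `t = 1` apart: `Real.log 0 = 0`, the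
term is `0`; just unfold `dd relEnt`).
(i) `(1 - t) log (1 - t) ≥ -t + t^2/2` on `[0,1]` (the difference has derivative
 `- log (1 - t) - t ≥ 0`; at `t = 1` the claim is `0 ≥ -1/2`).
(ii) Bennett: `(1 + z) log (1 + z) ≥ z + z^2 / (2 (1 + z/3))` for `z ≥ 0`: the difference `f` has
 `f(0) = f'(0) = 0`, `f'(z) = log (1 + z) - (3/2)(z^2 + 6 z)/(3 + z)^2`,
 `f''(z) = 1/(1+z) - 27/(3+z)^3 ≥ 0` because `(3+z)^3 ≥ 27 (1+z)`.
(iii) as `(1 - q) s = q`: `dd q (1-t) ≥ q (-t + t^2/2) + (1-q)(s t + s^2 t^2/(2(1+s t/3)))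
 = (1/2) q t^2 (1 + s/(1 + s t/3)) ≥ (1/2) q (1 + s) t^2/(1 + s t/3)` and `q (1 + s) = s`.
-/

set_option autoImplicit false

namespace Pool.Agent.W_bbc525_e2

open Pool.Agent.W_MP_bbc525_pr Pool.Agent.W_bbc525_td

theorem Dd_nonneg {f f' : ℝ → ℝ} {x : ℝ} (hx : 0 ≤ x)
    (h : ∀ y, 0 ≤ y → y ≤ x → HasDerivAt f (f' y) y) (h0 : f 0 = 0)
    (hp : ∀ y, 0 ≤ y → y ≤ x → 0 ≤ f' y) : 0 ≤ f x := by
  have hm : MonotoneOn f (Set.Icc 0 x) := by
    refine monotoneOn_of_deriv_nonneg (convex_Icc 0 x)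
      (fun y hy => (h y hy.1 hy.2).continuousAt.continuousWithinAt) (fun y hy => ?_)
      (fun y hy => ?_)
    · rw [interior_Icc] at hy
      exact (h y hy.1.le hy.2.le).differentiableAt.differentiableWithinAt
    · rw [interior_Icc] at hy
      rw [(h y hy.1.le hy.2.le).deriv]
      exact hp y hy.1.le hy.2.le
  have h1 := hm ⟨le_rfl, hx⟩ ⟨hx, le_rfl⟩ hx
  rwa [h0] at h1

/-- (i) -/
theorem Dd_one {t : ℝ} (ht : 0 ≤ t) (ht1 : t ≤ 1) :
    -t + t ^ 2 / 2 ≤ (1 - t) * Real.log (1 - t) := by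
  rcases ht1.lt_or_eq with h | h
  · have h1 : 0 ≤ (fun t : ℝ => (1 - t) * Real.log (1 - t) + t - t ^ 2 / 2) t := by
      refine Dd_nonneg (f := fun t : ℝ => (1 - t) * Real.log (1 - t) + t - t ^ 2 / 2)
        (f' := fun t => - Real.log (1 - t) - t) (x := t) ht (fun y hy hy1 => ?_) ?_
        (fun y hy hy1 => ?_)
      · have hy2 : (1 : ℝ) - y ≠ 0 := by linarith
        have e1 : HasDerivAt (fun t : ℝ => 1 - t) (-1) y := by
          simpa using (hasDerivAt_id y).const_sub 1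
        have e2 := e1.log hy2
        have e3 := e1.mul e2
        have e4 : HasDerivAt (fun t : ℝ => t ^ 2 / 2) y y := by
          have := (hasDerivAt_pow 2 y).div_const 2
          refine this.congr_deriv ?_
          norm_num
        have e5 := (e3.add (hasDerivAt_id y)).sub e4
        refine e5.congr_deriv ?_
        field_simp
        ring
      · simp
      · have h2 := Real.log_le_sub_one_of_pos (by linarith : (0 : ℝ) < 1 - y)
        show 0 ≤ - Real.log (1 - y) - y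
        linarith
    have h2 : (fun t : ℝ => (1 - t) * Real.log (1 - t) + t - t ^ 2 / 2) t =
      (1 - t) * Real.log (1 - t) + t - t ^ 2 / 2 := rfl
    rw [h2] at h1
    linarith
  · rw [h]
    norm_num

/-- (ii) -/
theorem Dd_two {z : ℝ} (hz : 0 ≤ z) :
    z + z ^ 2 / (2 * (1 + z / 3)) ≤ (1 + z) * Real.log (1 + z) := by
  have hg : ∀ y : ℝ, 0 ≤ y →
      0 ≤ (fun z : ℝ => Real.log (1 + z) - 3 / 2 * ((z ^ 2 + 6 * z) / (3 + z) ^ 2)) y := by
    intro y hy
    refine Dd_nonneg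
      (f := fun z : ℝ => Real.log (1 + z) - 3 / 2 * ((z ^ 2 + 6 * z) / (3 + z) ^ 2))
      (f' := fun z => 1 / (1 + z) - 27 / (3 + z) ^ 3) (x := y) hy (fun x hx _ => ?_) ?_
      (fun x hx _ => ?_)
    · have h3 : (3 : ℝ) + x ≠ 0 := by linarith
      have h1 : (1 : ℝ) + x ≠ 0 := by linarith
      have e1 : HasDerivAt (fun z : ℝ => 1 + z) 1 x := by
        simpa using (hasDerivAt_id x).const_add 1
      have e2 := e1.log h1
      have e3 : HasDerivAt (fun z : ℝ => z ^ 2 + 6 * z) (2 * x + 6) x := by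
        have := (hasDerivAt_pow 2 x).add ((hasDerivAt_id x).const_mul 6)
        refine this.congr_deriv ?_
        norm_num
      have e4 : HasDerivAt (fun z : ℝ => (3 + z) ^ 2) (2 * (3 + x)) x := by
        have := ((hasDerivAt_id x).const_add 3).pow 2
        refine this.congr_deriv ?_
        norm_num
      have e5 := e2.sub ((e3.div e4 (by positivity)).const_mul (3 / 2 : ℝ))
      refine e5.congr_deriv ?_
      field_simp
      ring
    · simp
    · show (0 : ℝ) ≤ 1 / (1 + x) - 27 / (3 + x) ^ 3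
      rw [sub_nonneg, div_le_div_iff₀ (by positivity) (by positivity)]
      nlinarith [mul_nonneg hx (mul_nonneg hx hx), mul_nonneg hx hx]
  have hf : 0 ≤ (fun z : ℝ => (1 + z) * Real.log (1 + z) - z - 3 / 2 * (z ^ 2 / (3 + z))) z := by
    refine Dd_nonneg
      (f := fun z : ℝ => (1 + z) * Real.log (1 + z) - z - 3 / 2 * (z ^ 2 / (3 + z)))
      (f' := fun z => Real.log (1 + z) - 3 / 2 * ((z ^ 2 + 6 * z) / (3 + z) ^ 2)) (x := z) hz
      (fun x hx _ => ?_) ?_ (fun x hx _ => hg x hx)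
    · have h3 : (3 : ℝ) + x ≠ 0 := by linarith
      have h1 : (1 : ℝ) + x ≠ 0 := by linarith
      have e1 : HasDerivAt (fun z : ℝ => 1 + z) 1 x := by
        simpa using (hasDerivAt_id x).const_add 1
      have e2 := e1.mul (e1.log h1)
      have e3 : HasDerivAt (fun z : ℝ => z ^ 2) (2 * x) x := by
        have := hasDerivAt_pow 2 x
        refine this.congr_deriv ?_
        norm_num
      have e4 : HasDerivAt (fun z : ℝ => 3 + z) 1 x := by
        simpa using (hasDerivAt_id x).const_add 3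
      have e5 := (e2.sub (hasDerivAt_id x)).sub ((e3.div e4 h3).const_mul (3 / 2 : ℝ))
      refine e5.congr_deriv ?_
      field_simp
      ring
    · simp
  have h2 : (fun z : ℝ => (1 + z) * Real.log (1 + z) - z - 3 / 2 * (z ^ 2 / (3 + z))) z =
    (1 + z) * Real.log (1 + z) - z - 3 / 2 * (z ^ 2 / (3 + z)) := rfl
  rw [h2] at hf
  have h3 : z ^ 2 / (2 * (1 + z / 3)) = 3 / 2 * (z ^ 2 / (3 + z)) := by
    have : (3 : ℝ) + z ≠ 0 := by linarith
    field_simp
  rw [h3]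
  linarith

theorem Dd_eq {q t : ℝ} (hq : 0 < q) (hq1 : q < 1) :
    dd q (1 - t) = q * ((1 - t) * Real.log (1 - t)) +
      (1 - q) * ((1 + q / (1 - q) * t) * Real.log (1 + q / (1 - q) * t)) := by
  have h1 : (1 : ℝ) - q ≠ 0 := by linarith
  unfold dd relEnt
  rw [mul_div_cancel_left₀ _ hq.ne']
  have h2 : (1 - q * (1 - t)) / (1 - q) = 1 + q / (1 - q) * t := by
    field_simp
    ring
  rw [h2]
  have h3 : 1 - q * (1 - t) = (1 - q) * (1 + q / (1 - q) * t) := by
    rw [← h2, mul_div_cancel₀ _ h1]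
  rw [h3]
  ring

theorem dd_lower {q t : ℝ} (hq : 0 < q) (hq1 : q < 1) (ht : 0 ≤ t) (ht1 : t ≤ 1) :
    (1 / 2) * (q / (1 - q)) * t ^ 2 / (1 + q / (1 - q) * t / 3) ≤ dd q (1 - t) := by
  rw [Dd_eq hq hq1]
  obtain ⟨s, hs⟩ : ∃ s, s = q / (1 - q) := ⟨_, rfl⟩
  have h1 : (0 : ℝ) < 1 - q := by linarith
  have hs0 : 0 ≤ s := by
    rw [hs]
    positivity
  have hqs : (1 - q) * s = q := by
    rw [hs]
    field_simp
  rw [← hs]
  have hst : 0 ≤ s * t := mul_nonneg hs0 ht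
  have e1 := mul_le_mul_of_nonneg_left (Dd_one ht ht1) hq.le
  have e2 := mul_le_mul_of_nonneg_left (Dd_two hst) h1.le
  have hD : (0 : ℝ) < 1 + s * t / 3 := by positivity
  refine le_trans ?_ (add_le_add e1 e2)
  have e3 : (1 - q) * (s * t + (s * t) ^ 2 / (2 * (1 + s * t / 3))) =
      q * t + q * s * t ^ 2 / (2 * (1 + s * t / 3)) := by
    have : (1 - q) * (s * t + (s * t) ^ 2 / (2 * (1 + s * t / 3))) =
      ((1 - q) * s) * t + ((1 - q) * s) * s * t ^ 2 / (2 * (1 + s * t / 3)) := by ring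
    rw [this, hqs]
  rw [e3]
  have e4 : s = q * (1 + s) := by
    have : (1 - q) * s = q := hqs
    linarith
  have e5 : 1 / 2 * s * t ^ 2 / (1 + s * t / 3) =
      q * t ^ 2 / (2 * (1 + s * t / 3)) + q * s * t ^ 2 / (2 * (1 + s * t / 3)) := by
    rw [← add_div]
    rw [div_eq_div_iff hD.ne' (by positivity)]
    have : q * t ^ 2 + q * s * t ^ 2 = s * t ^ 2 := by
      have h9 : q * t ^ 2 + q * s * t ^ 2 = (q * (1 + s)) * t ^ 2 := by ring
      rw [h9, ← e4]
    rw [this]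
    ring
  rw [e5]
  have e6 : q * t ^ 2 / (2 * (1 + s * t / 3)) ≤ q * t ^ 2 / 2 := by
    refine div_le_div_of_nonneg_left (by positivity) (by norm_num) ?_
    have : 0 ≤ s * t / 3 := by positivity
    linarith
  have e7 : q * (-t + t ^ 2 / 2) + (q * t + q * s * t ^ 2 / (2 * (1 + s * t / 3))) =
    q * t ^ 2 / 2 + q * s * t ^ 2 / (2 * (1 + s * t / 3)) := by ring
  rw [e7]
  linarith

end Pool.Agent.W_bbc525_e2
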