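import Pool.Agent.W_bbc525_e2.H0

/-!
# `Δ_n` below `1`

`Dl n u v = (u + v - 1)₊^n - u^n - v^n + 1`. For `0 < k ≤ 1`, `n = 1 + k`, `u, v ∈ [0,1]`,
`u + v ≥ 1`: `Dl (1 + k) u v ≤ (1 - u)(1 - v^k) + (1 - v)(1 - u^k)`.

PROOF. Put `w = u + v - 1 ∈ [0, 1]`. (1) `w^k ≤ u^k + v^k - 1`: if `w = 1` then `u = v = 1`. If
`w < 1` put `λ = (1 - u)/(1 - w) ∈ [0,1]`, then `u = λ w + (1 - λ)`, `v = (1 - λ) w + λ`
(as `1 - w = (1 - u) + (1 - v)`), and `t ↦ t^k` is concave on `[0, ∞)`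
(`Real.concaveOn_rpow`): `u^k ≥ λ w^k + (1 - λ)`, `v^k ≥ (1 - λ) w^k + λ`; add.
(2) `w^(1+k) = w * w^k ≤ w (u^k + v^k - 1)`, `u^(1+k) = u u^k`, `v^(1+k) = v v^k`, and
`w (u^k + v^k - 1) - u u^k - v v^k + 1 = (1 - u)(1 - v^k) + (1 - v)(1 - u^k)` is an identity.
(`Real.rpow_add'` / `Real.rpow_add_of_nonneg` for `t^(1+k) = t * t^k`, `t ≥ 0`.)
-/

set_option autoImplicit false

namespace Pool.Agent.W_bbc525_e2

open Pool.Agent.W_bbc525_ends

theorem dl_small {k u v : ℝ} (hk : 0 < k) (hk1 : k ≤ 1) (hu : 0 ≤ u) (hu1 : u ≤ 1) (hv : 0 ≤ v)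
    (hv1 : v ≤ 1) (huv : 1 ≤ u + v) :
    Dl (1 + k) u v ≤ (1 - u) * (1 - v ^ k) + (1 - v) * (1 - u ^ k) := by
  have hw : 0 ≤ u + v - 1 := by linarith
  have hp : ∀ t : ℝ, 0 ≤ t → t ^ (1 + k) = t * t ^ k := by
    intro t ht
    rw [Real.rpow_add_of_nonneg ht zero_le_one hk.le, Real.rpow_one]
  have key : (u + v - 1) ^ k ≤ u ^ k + v ^ k - 1 := by
    rcases eq_or_lt_of_le (show u + v - 1 ≤ 1 by linarith) with h | h
    · have hu' : u = 1 := by linarith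
      have hv' : v = 1 := by linarith
      subst hu' hv'
      norm_num
    · have hpos : 0 < 1 - (u + v - 1) := by linarith
      have hl0 : 0 ≤ (1 - u) / (1 - (u + v - 1)) := div_nonneg (by linarith) hpos.le
      have hl1 : (1 - u) / (1 - (u + v - 1)) ≤ 1 := by
        rw [div_le_one hpos]
        linarith
      have hm : (1 - u) / (1 - (u + v - 1)) * (1 - (u + v - 1)) = 1 - u :=
        div_mul_cancel₀ _ hpos.ne'
      generalize (1 - u) / (1 - (u + v - 1)) = l at hl0 hl1 hm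
      have hc := Real.concaveOn_rpow hk.le hk1
      have m0 : u + v - 1 ∈ Set.Ici (0 : ℝ) := hw
      have m1 : (1 : ℝ) ∈ Set.Ici (0 : ℝ) := Set.mem_Ici.2 zero_le_one
      have h1 := hc.2 m0 m1 hl0 (by linarith : 0 ≤ 1 - l) (by ring)
      have h2 := hc.2 m0 m1 (by linarith : 0 ≤ 1 - l) hl0 (by ring)
      simp only [smul_eq_mul, Real.one_rpow, mul_one] at h1 h2
      have e1 : l * (u + v - 1) + (1 - l) = u := by linarith
      have e2 : (1 - l) * (u + v - 1) + l = v := by linarith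
      rw [e1] at h1
      rw [e2] at h2
      linarith
  unfold Dl
  rw [max_eq_left hw, hp _ hw, hp u hu, hp v hv]
  have h3 := mul_le_mul_of_nonneg_left key hw
  linarith

end Pool.Agent.W_bbc525_e2
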