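import Pool.Agent.W_bbc525_e2.H0

/-!
# The total loss function

For `g ≥ 0`: `((7/2) hub g + hub (g/2) + (1/2) (g - 1)₊) (18 + g) ≤ (147/4) g^2`
(numerically checked; the worst point is `g = 1.164`, where the quotient of the sides is `.9912`).

PROOF. `g ≤ 1`: the bracket is `(15/8) g^2` and `18 + g ≤ 19`, `(15/8) 19 = 35.625 ≤ 36.75`.
`1 ≤ g ≤ 2`: the bracket is `4 g - 9/4 + g^2/8`; the claim is a cubic polynomial inequality:
`(147/4) g^2 - (4 g - 9/4 + g^2/8)(18 + g) ≥ 0`, i.e. multiplied by `8`: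
`294 g^2 - (32 g - 18 + g^2)(18 + g) = 244 g^2 - g^3 - 558 g + 324 ≥ 0` on `[1, 2]`
(use `g^3 ≤ 2 g^2`... then `242 g^2 - 558 g + 324 ≥ 0`: discriminant `558^2 - 4*242*324 = -2268`).
`g ≥ 2`: the bracket is `(9/2) g - 11/4`: `(147/4) g^2 - ((9/2) g - 11/4)(18 + g) ≥ 0`, a quadratic
with negative discriminant.
-/

set_option autoImplicit false

namespace Pool.Agent.W_bbc525_e2

/-- the total loss function -/
noncomputable def Mg (g : ℝ) : ℝ := (7 / 2) * hub g + hub (g / 2) + (1 / 2) * max (g - 1) 0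

theorem Mg_le {g : ℝ} (hg : 0 ≤ g) : Mg g * (18 + g) ≤ 147 / 4 * g ^ 2 := by
  unfold Mg hub
  by_cases h1 : g ≤ 1
  · have h2 : g / 2 ≤ 1 := by linarith
    have h3 : max (g - 1) 0 = 0 := max_eq_right (by linarith)
    rw [if_pos h1, if_pos h2, h3]
    nlinarith [mul_nonneg (sq_nonneg g) (sub_nonneg.2 h1), sq_nonneg g]
  · have h1' : 1 < g := not_le.1 h1
    have h3 : max (g - 1) 0 = g - 1 := max_eq_left (by linarith)
    rw [if_neg h1, h3]
    by_cases h2 : g / 2 ≤ 1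
    · rw [if_pos h2]
      have h4 : 0 ≤ g ^ 2 * (2 - g) := mul_nonneg (sq_nonneg g) (by linarith)
      nlinarith [sq_nonneg (484 * g - 558)]
    · rw [if_neg h2]
      nlinarith [sq_nonneg (g - 2), sq_nonneg (258 * g - 313)]

end Pool.Agent.W_bbc525_e2
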