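import Pool.Agent.W_bbc525_e2.H0

/-!
# `g_d (1 - t) ≤ hub (d t) / d`

Here `gg d X = (X^d - 1)/d - (X - 1)`, so `gg d (1 - t) = ((1 - t)^d - 1)/d + t`.

PROOF. If `d t ≤ 1`: `(1 - t)^d ≤ 1 - d t + d (d - 1) / 2 t^2` (`pow_le_quad`/`gg_le` in
`Pool.Agent.W_bbc525_ends.SJ`: `gg d X ≤ ((d - 1)/2) (1 - X)^2`), and `(d - 1)/2 t^2 ≤ (d t)^2/(2 d)`.
If `d t > 1`: one needs `(1 - t)^d ≤ 1/2` : indeed `hub (d t)/d = t - 1/(2 d)`. Since
`(1 - t)^d ≤ exp (- d t) ≤ exp (-1) < 1/2` (`Real.one_sub_le_exp_neg`, `Real.exp_one_gt_d9`).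
-/

set_option autoImplicit false

namespace Pool.Agent.W_bbc525_e2

open Pool.Agent.W_bbc525_ends

theorem psi_hub {d : ℕ} (hd : 1 ≤ d) {t : ℝ} (ht : 0 ≤ t) (ht1 : t ≤ 1) :
    gg d (1 - t) ≤ hub (d * t) / d := by
  have hd0 : (0 : ℝ) < d := by exact_mod_cast hd
  have hX : 0 ≤ 1 - t := by linarith
  have hX1 : 1 - t ≤ 1 := by linarith
  unfold hub
  split_ifs with h
  · have h1 := gg_le hd hX hX1
    have h2 : 1 - (1 - t) = t := by ring
    rw [h2] at h1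
    refine h1.trans ?_
    have h3 : ((d : ℝ) * t) ^ 2 / 2 / d = (d : ℝ) / 2 * t ^ 2 := by
      field_simp
    rw [h3]
    have h4 : 0 ≤ t ^ 2 := sq_nonneg t
    nlinarith
  · have h' : 1 < (d : ℝ) * t := not_le.1 h
    have h1 : (1 - t) ^ d ≤ 1 / 2 := by
      have e1 : 1 - t ≤ Real.exp (-t) := Real.one_sub_le_exp_neg t
      have e2 : (1 - t) ^ d ≤ Real.exp (-t) ^ d := pow_le_pow_left₀ hX e1 d
      have e3 : Real.exp (-t) ^ d = Real.exp (-((d : ℝ) * t)) := by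
        rw [← Real.exp_nat_mul]
        congr 1
        ring
      have e4 : Real.exp (-((d : ℝ) * t)) ≤ Real.exp (-1) := Real.exp_le_exp.2 (by linarith)
      have e5 : Real.exp (-1) ≤ 1 / 2 := by
        rw [Real.exp_neg]
        have e6 : (2 : ℝ) ≤ Real.exp 1 := by
          have := Real.exp_one_gt_d9
          linarith
        rw [one_div]
        exact inv_anti₀ (by norm_num) e6
      rw [e3] at e2
      linarith
    unfold gg
    have h2 : ((1 - t) ^ d - 1) / (d : ℝ) ≤ (1 / 2 - 1) / (d : ℝ) :=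
      div_le_div_of_nonneg_right (by linarith) hd0.le
    have h3 : ((d : ℝ) * t - 1 / 2) / d = t + (1 / 2 - 1) / (d : ℝ) := by
      field_simp
      ring
    rw [h3]
    linarith

end Pool.Agent.W_bbc525_e2
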