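import Pool.Agent.W_bbc525_e2.H0

/-!
# The weight inequality

For a natural number `a ≥ 4` and real `x ≥ (a+3)/(a-3)`:
`(33/4) a (x - 1) log x ≤ gg a x = (x^a - 1)/a - (x - 1)`.
(Numerically checked: the quotient `gg a x / (a (x-1) log x)` is at least `8.887`, its value at
`a = 9`, `x = 2`; at `x = (a+3)/(a-3)` it is 12.7, 9.7, 9.07, 8.93, 8.89, 8.887, 8.93, ... for
`a = 4, 5, 6, 7, 8, 9, 10, ...` and tends to `11`.)

PROOF. Division by `x - 1 > 0`: with `S(x) = (1 + x + ... + x^(a-1))/a` (`geom_sum_mul`) the claim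
is `(33/4) a log x ≤ S(x) - 1`.
(A) `4 ≤ a ≤ 15` (`interval_cases a`): put `x₀ = (a+3)/(a-3)`; `log x ≤ log x₀ + (x - x₀)/x₀`
 (`Real.log_le_sub_one_of_pos` for `x / x₀`), a rational upper bound for `log x₀` (e.g.
 `log 7 ≤ 1.9460`, `log 4`, `log 3 ≤ 1.0987`, `log (5/2) ≤ .9163`, `log (11/5) ≤ .7885`,
 `log 2 ≤ .6932`, `log (13/7) ≤ .6191`, `log (7/4) ≤ .5597`, `log (5/3) ≤ .5109`, ...; there is room:
 5 percent is enough), and with `x = x₀ + z`, `z ≥ 0`, the polynomial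
 `S(x₀ + z) - 1 - (33/4) a (L₀ + z/x₀)` has nonnegative coefficients.
(B) `a ≥ 16`: put `y = a log x`. `log x ≥ 6/a`, i.e. `y ≥ 6`, from `log t ≥ 2 (t-1)/(t+1)`
 (`Real.le_log_one_add_of_nonneg`). `x^a = exp y`, `x = exp (y/a)`, and with `B = a (x - 1)` the
 claim is `((33/4) y + 1) B + 1 ≤ exp y`. By `exp z - 1 ≤ z (1 + exp z)/2` (`z ≥ 0`, trapezoid rule)
 `B ≤ y (1 + exp (y/a))/2 ≤ y (1 + exp (y/16))/2`. So it suffices that
 `((33/4) y^2 + y)(1 + exp (y/16))/2 + 1 ≤ exp y` for `y ≥ 6`. Put `y = 6 + σ`, `σ ≥ 0`: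
 `(33/4) y^2 + y ≤ 303 exp (σ/3)` (at `σ = 0` it is `303`; `1 + (100/303) σ + (33/1212) σ^2 ≤
 1 + σ/3 + σ^2/18 ≤ exp (σ/3)`, `Real.quadratic_le_exp_of_nonneg`), `1 + exp (y/16) ≤
 (1 + exp (3/8)) exp (σ/16)`, so the left side is at most
 `(303/2)(1 + exp (3/8)) exp (σ) + 1 ≤ 373 exp σ ... ≤ exp 6 exp σ` because
 `exp (3/8) ≤ 1.455`, `exp 6 ≥ 403` (`Real.exp_one_gt_d9`: `2.7182818283^6 > 403`), and
 `151.5 * 2.455 + 1 < 373 < 403`.
-/

set_option autoImplicit false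

namespace Pool.Agent.W_bbc525_e2

open Pool.Agent.W_bbc525_ends

/-- rational upper bounds for logarithms -/
theorem Ws_log {x : ℝ} (hx : 0 < x) {p q : ℕ} (hq : 0 < q) (h : x ^ q ≤ (2.7182818283 : ℝ) ^ p) :
    Real.log x ≤ (p : ℝ) / q := by
  have hq' : (0 : ℝ) < q := by exact_mod_cast hq
  rw [le_div_iff₀ hq', mul_comm]
  have h1 : (q : ℝ) * Real.log x = Real.log (x ^ q) := by rw [Real.log_pow]
  rw [h1]
  have h2 : x ^ q ≤ Real.exp p := by
    refine le_trans h ?_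
    have h3 : Real.exp (p : ℝ) = Real.exp 1 ^ p := by rw [← Real.exp_nat_mul, mul_one]
    rw [h3]
    exact pow_le_pow_left₀ (by norm_num) Real.exp_one_gt_d9.le p
  calc Real.log (x ^ q) ≤ Real.log (Real.exp p) := Real.log_le_log (by positivity) h2
    _ = p := Real.log_exp _

/-- the tangent of the logarithm -/
theorem Ws_tan {x₀ x : ℝ} (h0 : 0 < x₀) (hx : 0 < x) :
    Real.log x ≤ Real.log x₀ + (x - x₀) / x₀ := by
  have h1 := Real.log_le_sub_one_of_pos (show 0 < x / x₀ by positivity)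
  rw [Real.log_div hx.ne' h0.ne'] at h1
  have h2 : x / x₀ - 1 = (x - x₀) / x₀ := by
    field_simp
  linarith

/-- division by `x - 1` -/
theorem Ws_fin {a : ℕ} (ha : 0 < a) {x : ℝ} (hx : 1 ≤ x)
    (h : 33 / 4 * (a : ℝ) * Real.log x + 1 ≤ (∑ i ∈ Finset.range a, x ^ i) / a) :
    33 / 4 * a * ((x - 1) * Real.log x) ≤ gg a x := by
  have ha' : (0 : ℝ) < a := by exact_mod_cast ha
  have h1 : gg a x = (x - 1) * ((∑ i ∈ Finset.range a, x ^ i) / a - 1) := by
    unfold gg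
    rw [← geom_sum_mul x a]
    ring
  rw [h1]
  have h2 := mul_le_mul_of_nonneg_left (show 33 / 4 * (a : ℝ) * Real.log x ≤
    (∑ i ∈ Finset.range a, x ^ i) / a - 1 by linarith) (show 0 ≤ x - 1 by linarith)
  linarith

/-- the case `a = 4` -/
theorem Ws_4 {x : ℝ} (hx : (7 : ℝ) ≤ x) :
    33 / 4 * 4 * Real.log x + 1 ≤ (∑ i ∈ Finset.range 4, x ^ i) / 4 := by
  have h1 : Real.log (7 : ℝ) ≤ 2 / 1 := by
    have h := Ws_log (x := 7) (by norm_num) (p := 2) (q := 1) (by norm_num) (by norm_num)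
    simpa using h
  have h2 := Ws_tan (x₀ := 7) (x := x) (by norm_num) (by linarith)
  obtain ⟨z, hz, rfl⟩ : ∃ z : ℝ, 0 ≤ z ∧ x = 7 + z := ⟨x - 7, by linarith, by ring⟩
  have h3 : 33 / 4 * 4 * Real.log (7 + z) ≤ 33 / 4 * 4 * (2 / 1 + z / (7)) := by
    apply mul_le_mul_of_nonneg_left _ (by norm_num)
    have h4 : (7 + z - 7) / (7 : ℝ) = z / (7) := by ring
    rw [h4] at h2
    linarith
  refine le_trans (add_le_add h3 le_rfl) ?_
  rw [← sub_nonneg]
  simp only [Finset.sum_range_succ, Finset.sum_range_zero]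
  ring_nf
  positivity

/-- the case `a = 5` -/
theorem Ws_5 {x : ℝ} (hx : (4 : ℝ) ≤ x) :
    33 / 4 * 5 * Real.log x + 1 ≤ (∑ i ∈ Finset.range 5, x ^ i) / 5 := by
  have h1 : Real.log (4 : ℝ) ≤ 7 / 5 := by
    have h := Ws_log (x := 4) (by norm_num) (p := 7) (q := 5) (by norm_num) (by norm_num)
    simpa using h
  have h2 := Ws_tan (x₀ := 4) (x := x) (by norm_num) (by linarith)
  obtain ⟨z, hz, rfl⟩ : ∃ z : ℝ, 0 ≤ z ∧ x = 4 + z := ⟨x - 4, by linarith, by ring⟩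
  have h3 : 33 / 4 * 5 * Real.log (4 + z) ≤ 33 / 4 * 5 * (7 / 5 + z / (4)) := by
    apply mul_le_mul_of_nonneg_left _ (by norm_num)
    have h4 : (4 + z - 4) / (4 : ℝ) = z / (4) := by ring
    rw [h4] at h2
    linarith
  refine le_trans (add_le_add h3 le_rfl) ?_
  rw [← sub_nonneg]
  simp only [Finset.sum_range_succ, Finset.sum_range_zero]
  ring_nf
  positivity

/-- the case `a = 6` -/
theorem Ws_6 {x : ℝ} (hx : (3 : ℝ) ≤ x) :
    33 / 4 * 6 * Real.log x + 1 ≤ (∑ i ∈ Finset.range 6, x ^ i) / 6 := by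
  have h1 : Real.log (3 : ℝ) ≤ 10 / 9 := by
    have h := Ws_log (x := 3) (by norm_num) (p := 10) (q := 9) (by norm_num) (by norm_num)
    simpa using h
  have h2 := Ws_tan (x₀ := 3) (x := x) (by norm_num) (by linarith)
  obtain ⟨z, hz, rfl⟩ : ∃ z : ℝ, 0 ≤ z ∧ x = 3 + z := ⟨x - 3, by linarith, by ring⟩
  have h3 : 33 / 4 * 6 * Real.log (3 + z) ≤ 33 / 4 * 6 * (10 / 9 + z / (3)) := by
    apply mul_le_mul_of_nonneg_left _ (by norm_num)
    have h4 : (3 + z - 3) / (3 : ℝ) = z / (3) := by ring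
    rw [h4] at h2
    linarith
  refine le_trans (add_le_add h3 le_rfl) ?_
  rw [← sub_nonneg]
  simp only [Finset.sum_range_succ, Finset.sum_range_zero]
  ring_nf
  positivity

/-- the case `a = 7` -/
theorem Ws_7 {x : ℝ} (hx : (5 / 2 : ℝ) ≤ x) :
    33 / 4 * 7 * Real.log x + 1 ≤ (∑ i ∈ Finset.range 7, x ^ i) / 7 := by
  have h1 : Real.log (5 / 2 : ℝ) ≤ 12 / 13 := by
    have h := Ws_log (x := 5 / 2) (by norm_num) (p := 12) (q := 13) (by norm_num) (by norm_num)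
    simpa using h
  have h2 := Ws_tan (x₀ := 5 / 2) (x := x) (by norm_num) (by linarith)
  obtain ⟨z, hz, rfl⟩ : ∃ z : ℝ, 0 ≤ z ∧ x = 5 / 2 + z := ⟨x - 5 / 2, by linarith, by ring⟩
  have h3 : 33 / 4 * 7 * Real.log (5 / 2 + z) ≤ 33 / 4 * 7 * (12 / 13 + z / (5 / 2)) := by
    apply mul_le_mul_of_nonneg_left _ (by norm_num)
    have h4 : (5 / 2 + z - 5 / 2) / (5 / 2 : ℝ) = z / (5 / 2) := by ring
    rw [h4] at h2
    linarith
  refine le_trans (add_le_add h3 le_rfl) ?_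
  rw [← sub_nonneg]
  simp only [Finset.sum_range_succ, Finset.sum_range_zero]
  ring_nf
  positivity

/-- the case `a = 8` -/
theorem Ws_8 {x : ℝ} (hx : (11 / 5 : ℝ) ≤ x) :
    33 / 4 * 8 * Real.log x + 1 ≤ (∑ i ∈ Finset.range 8, x ^ i) / 8 := by
  have h1 : Real.log (11 / 5 : ℝ) ≤ 4 / 5 := by
    have h := Ws_log (x := 11 / 5) (by norm_num) (p := 4) (q := 5) (by norm_num) (by norm_num)
    simpa using h
  have h2 := Ws_tan (x₀ := 11 / 5) (x := x) (by norm_num) (by linarith)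
  obtain ⟨z, hz, rfl⟩ : ∃ z : ℝ, 0 ≤ z ∧ x = 11 / 5 + z := ⟨x - 11 / 5, by linarith, by ring⟩
  have h3 : 33 / 4 * 8 * Real.log (11 / 5 + z) ≤ 33 / 4 * 8 * (4 / 5 + z / (11 / 5)) := by
    apply mul_le_mul_of_nonneg_left _ (by norm_num)
    have h4 : (11 / 5 + z - 11 / 5) / (11 / 5 : ℝ) = z / (11 / 5) := by ring
    rw [h4] at h2
    linarith
  refine le_trans (add_le_add h3 le_rfl) ?_
  rw [← sub_nonneg]
  simp only [Finset.sum_range_succ, Finset.sum_range_zero]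
  ring_nf
  positivity

/-- the case `a = 9` -/
theorem Ws_9 {x : ℝ} (hx : (2 : ℝ) ≤ x) :
    33 / 4 * 9 * Real.log x + 1 ≤ (∑ i ∈ Finset.range 9, x ^ i) / 9 := by
  have h1 : Real.log (2 : ℝ) ≤ 7 / 10 := by
    have h := Ws_log (x := 2) (by norm_num) (p := 7) (q := 10) (by norm_num) (by norm_num)
    simpa using h
  have h2 := Ws_tan (x₀ := 2) (x := x) (by norm_num) (by linarith)
  obtain ⟨z, hz, rfl⟩ : ∃ z : ℝ, 0 ≤ z ∧ x = 2 + z := ⟨x - 2, by linarith, by ring⟩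
  have h3 : 33 / 4 * 9 * Real.log (2 + z) ≤ 33 / 4 * 9 * (7 / 10 + z / (2)) := by
    apply mul_le_mul_of_nonneg_left _ (by norm_num)
    have h4 : (2 + z - 2) / (2 : ℝ) = z / (2) := by ring
    rw [h4] at h2
    linarith
  refine le_trans (add_le_add h3 le_rfl) ?_
  rw [← sub_nonneg]
  simp only [Finset.sum_range_succ, Finset.sum_range_zero]
  ring_nf
  positivity

/-- the case `a = 10` -/
theorem Ws_10 {x : ℝ} (hx : (13 / 7 : ℝ) ≤ x) :
    33 / 4 * 10 * Real.log x + 1 ≤ (∑ i ∈ Finset.range 10, x ^ i) / 10 := by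
  have h1 : Real.log (13 / 7 : ℝ) ≤ 5 / 8 := by
    have h := Ws_log (x := 13 / 7) (by norm_num) (p := 5) (q := 8) (by norm_num) (by norm_num)
    simpa using h
  have h2 := Ws_tan (x₀ := 13 / 7) (x := x) (by norm_num) (by linarith)
  obtain ⟨z, hz, rfl⟩ : ∃ z : ℝ, 0 ≤ z ∧ x = 13 / 7 + z := ⟨x - 13 / 7, by linarith, by ring⟩
  have h3 : 33 / 4 * 10 * Real.log (13 / 7 + z) ≤ 33 / 4 * 10 * (5 / 8 + z / (13 / 7)) := by
    apply mul_le_mul_of_nonneg_left _ (by norm_num)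
    have h4 : (13 / 7 + z - 13 / 7) / (13 / 7 : ℝ) = z / (13 / 7) := by ring
    rw [h4] at h2
    linarith
  refine le_trans (add_le_add h3 le_rfl) ?_
  rw [← sub_nonneg]
  simp only [Finset.sum_range_succ, Finset.sum_range_zero]
  ring_nf
  positivity

/-- the case `a = 11` -/
theorem Ws_11 {x : ℝ} (hx : (7 / 4 : ℝ) ≤ x) :
    33 / 4 * 11 * Real.log x + 1 ≤ (∑ i ∈ Finset.range 11, x ^ i) / 11 := by
  have h1 : Real.log (7 / 4 : ℝ) ≤ 4 / 7 := by
    have h := Ws_log (x := 7 / 4) (by norm_num) (p := 4) (q := 7) (by norm_num) (by norm_num)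
    simpa using h
  have h2 := Ws_tan (x₀ := 7 / 4) (x := x) (by norm_num) (by linarith)
  obtain ⟨z, hz, rfl⟩ : ∃ z : ℝ, 0 ≤ z ∧ x = 7 / 4 + z := ⟨x - 7 / 4, by linarith, by ring⟩
  have h3 : 33 / 4 * 11 * Real.log (7 / 4 + z) ≤ 33 / 4 * 11 * (4 / 7 + z / (7 / 4)) := by
    apply mul_le_mul_of_nonneg_left _ (by norm_num)
    have h4 : (7 / 4 + z - 7 / 4) / (7 / 4 : ℝ) = z / (7 / 4) := by ring
    rw [h4] at h2
    linarith
  refine le_trans (add_le_add h3 le_rfl) ?_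
  rw [← sub_nonneg]
  simp only [Finset.sum_range_succ, Finset.sum_range_zero]
  ring_nf
  positivity

/-- the case `a = 12` -/
theorem Ws_12 {x : ℝ} (hx : (5 / 3 : ℝ) ≤ x) :
    33 / 4 * 12 * Real.log x + 1 ≤ (∑ i ∈ Finset.range 12, x ^ i) / 12 := by
  have h1 : Real.log (5 / 3 : ℝ) ≤ 11 / 21 := by
    have h := Ws_log (x := 5 / 3) (by norm_num) (p := 11) (q := 21) (by norm_num) (by norm_num)
    simpa using h
  have h2 := Ws_tan (x₀ := 5 / 3) (x := x) (by norm_num) (by linarith)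
  obtain ⟨z, hz, rfl⟩ : ∃ z : ℝ, 0 ≤ z ∧ x = 5 / 3 + z := ⟨x - 5 / 3, by linarith, by ring⟩
  have h3 : 33 / 4 * 12 * Real.log (5 / 3 + z) ≤ 33 / 4 * 12 * (11 / 21 + z / (5 / 3)) := by
    apply mul_le_mul_of_nonneg_left _ (by norm_num)
    have h4 : (5 / 3 + z - 5 / 3) / (5 / 3 : ℝ) = z / (5 / 3) := by ring
    rw [h4] at h2
    linarith
  refine le_trans (add_le_add h3 le_rfl) ?_
  rw [← sub_nonneg]
  simp only [Finset.sum_range_succ, Finset.sum_range_zero]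
  ring_nf
  positivity

/-- the case `a = 13` -/
theorem Ws_13 {x : ℝ} (hx : (8 / 5 : ℝ) ≤ x) :
    33 / 4 * 13 * Real.log x + 1 ≤ (∑ i ∈ Finset.range 13, x ^ i) / 13 := by
  have h1 : Real.log (8 / 5 : ℝ) ≤ 10 / 21 := by
    have h := Ws_log (x := 8 / 5) (by norm_num) (p := 10) (q := 21) (by norm_num) (by norm_num)
    simpa using h
  have h2 := Ws_tan (x₀ := 8 / 5) (x := x) (by norm_num) (by linarith)
  obtain ⟨z, hz, rfl⟩ : ∃ z : ℝ, 0 ≤ z ∧ x = 8 / 5 + z := ⟨x - 8 / 5, by linarith, by ring⟩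
  have h3 : 33 / 4 * 13 * Real.log (8 / 5 + z) ≤ 33 / 4 * 13 * (10 / 21 + z / (8 / 5)) := by
    apply mul_le_mul_of_nonneg_left _ (by norm_num)
    have h4 : (8 / 5 + z - 8 / 5) / (8 / 5 : ℝ) = z / (8 / 5) := by ring
    rw [h4] at h2
    linarith
  refine le_trans (add_le_add h3 le_rfl) ?_
  rw [← sub_nonneg]
  simp only [Finset.sum_range_succ, Finset.sum_range_zero]
  ring_nf
  positivity

/-- the case `a = 14` -/
theorem Ws_14 {x : ℝ} (hx : (17 / 11 : ℝ) ≤ x) :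
    33 / 4 * 14 * Real.log x + 1 ≤ (∑ i ∈ Finset.range 14, x ^ i) / 14 := by
  have h1 : Real.log (17 / 11 : ℝ) ≤ 4 / 9 := by
    have h := Ws_log (x := 17 / 11) (by norm_num) (p := 4) (q := 9) (by norm_num) (by norm_num)
    simpa using h
  have h2 := Ws_tan (x₀ := 17 / 11) (x := x) (by norm_num) (by linarith)
  obtain ⟨z, hz, rfl⟩ : ∃ z : ℝ, 0 ≤ z ∧ x = 17 / 11 + z := ⟨x - 17 / 11, by linarith, by ring⟩
  have h3 : 33 / 4 * 14 * Real.log (17 / 11 + z) ≤ 33 / 4 * 14 * (4 / 9 + z / (17 / 11)) := by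
    apply mul_le_mul_of_nonneg_left _ (by norm_num)
    have h4 : (17 / 11 + z - 17 / 11) / (17 / 11 : ℝ) = z / (17 / 11) := by ring
    rw [h4] at h2
    linarith
  refine le_trans (add_le_add h3 le_rfl) ?_
  rw [← sub_nonneg]
  simp only [Finset.sum_range_succ, Finset.sum_range_zero]
  ring_nf
  positivity

/-- the case `a = 15` -/
theorem Ws_15 {x : ℝ} (hx : (3 / 2 : ℝ) ≤ x) :
    33 / 4 * 15 * Real.log x + 1 ≤ (∑ i ∈ Finset.range 15, x ^ i) / 15 := by
  have h1 : Real.log (3 / 2 : ℝ) ≤ 7 / 17 := by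
    have h := Ws_log (x := 3 / 2) (by norm_num) (p := 7) (q := 17) (by norm_num) (by norm_num)
    simpa using h
  have h2 := Ws_tan (x₀ := 3 / 2) (x := x) (by norm_num) (by linarith)
  obtain ⟨z, hz, rfl⟩ : ∃ z : ℝ, 0 ≤ z ∧ x = 3 / 2 + z := ⟨x - 3 / 2, by linarith, by ring⟩
  have h3 : 33 / 4 * 15 * Real.log (3 / 2 + z) ≤ 33 / 4 * 15 * (7 / 17 + z / (3 / 2)) := by
    apply mul_le_mul_of_nonneg_left _ (by norm_num)
    have h4 : (3 / 2 + z - 3 / 2) / (3 / 2 : ℝ) = z / (3 / 2) := by ring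
    rw [h4] at h2
    linarith
  refine le_trans (add_le_add h3 le_rfl) ?_
  rw [← sub_nonneg]
  simp only [Finset.sum_range_succ, Finset.sum_range_zero]
  ring_nf
  positivity

/-- the trapezoid rule for `exp` -/
theorem Ws_trap {z : ℝ} (hz : 0 ≤ z) : Real.exp z - 1 ≤ z * (1 + Real.exp z) / 2 := by
  have h1 : 1 ≤ Real.exp z := Real.one_le_exp hz
  have h2 := Real.le_log_one_add_of_nonneg (x := Real.exp z - 1) (by linarith)
  have h3 : (1 : ℝ) + (Real.exp z - 1) = Real.exp z := by ring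
  rw [h3, Real.log_exp] at h2
  have h4 : (0 : ℝ) < Real.exp z - 1 + 2 := by linarith
  rw [div_le_iff₀ h4] at h2
  linarith

/-- the final inequality -/
theorem Ws_end {y : ℝ} (hy : 6 ≤ y) :
    (33 / 4 * y ^ 2 + y) * (1 + Real.exp (y / 16)) / 2 + 1 ≤ Real.exp y := by
  obtain ⟨s, hs, rfl⟩ : ∃ s : ℝ, 0 ≤ s ∧ y = 6 + s := ⟨y - 6, by linarith, by ring⟩
  have h1 : 33 / 4 * (6 + s) ^ 2 + (6 + s) ≤ 303 * Real.exp (s / 3) := by
    have h := Real.quadratic_le_exp_of_nonneg (show 0 ≤ s / 3 by positivity)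
    nlinarith [sq_nonneg s]
  have h2 : Real.exp ((6 + s) / 16) = Real.exp (3 / 8) * Real.exp (s / 16) := by
    rw [← Real.exp_add]
    congr 1
    ring
  have h3 : Real.exp (3 / 8 : ℝ) ≤ 1.46 := by
    have h : Real.exp (3 / 8 : ℝ) ^ 8 ≤ (1.46 : ℝ) ^ 8 := by
      rw [← Real.exp_nat_mul]
      have e1 : ((8 : ℕ) : ℝ) * (3 / 8) = ((3 : ℕ) : ℝ) * 1 := by norm_num
      rw [e1, Real.exp_nat_mul]
      refine le_trans (pow_le_pow_left₀ (Real.exp_pos _).le Real.exp_one_lt_d9.le 3) ?_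
      norm_num
    exact le_of_pow_le_pow_left₀ (by norm_num) (by norm_num) h
  have h4 : (1 : ℝ) ≤ Real.exp (s / 16) := Real.one_le_exp (by positivity)
  have h5 : 1 + Real.exp ((6 + s) / 16) ≤ 2.46 * Real.exp (s / 16) := by
    rw [h2]
    nlinarith
  have h6 : (373 : ℝ) + 1 ≤ Real.exp 6 := by
    have e1 : (6 : ℝ) = ((6 : ℕ) : ℝ) * 1 := by norm_num
    rw [e1, Real.exp_nat_mul]
    refine le_trans ?_ (pow_le_pow_left₀ (by norm_num) Real.exp_one_gt_d9.le 6)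
    norm_num
  have h7 : Real.exp (s / 3) * Real.exp (s / 16) ≤ Real.exp s := by
    rw [← Real.exp_add]
    apply Real.exp_le_exp.2
    linarith
  have h8 : (1 : ℝ) ≤ Real.exp s := Real.one_le_exp hs
  have h9 : (33 / 4 * (6 + s) ^ 2 + (6 + s)) * (1 + Real.exp ((6 + s) / 16)) ≤
      303 * Real.exp (s / 3) * (2.46 * Real.exp (s / 16)) :=
    mul_le_mul h1 h5 (by positivity) (by positivity)
  have h10 : Real.exp (6 + s) = Real.exp 6 * Real.exp s := Real.exp_add _ _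
  rw [h10]
  have h11 : 374 * Real.exp s ≤ Real.exp 6 * Real.exp s :=
    mul_le_mul_of_nonneg_right (by linarith) (Real.exp_pos _).le
  nlinarith

/-- the case `a ≥ 16` -/
theorem Ws_big {a : ℕ} (ha : 16 ≤ a) {x : ℝ} (hx : ((a : ℝ) + 3) / (a - 3) ≤ x) :
    33 / 4 * a * ((x - 1) * Real.log x) ≤ gg a x := by
  have ha' : (16 : ℝ) ≤ a := by exact_mod_cast ha
  have ha3 : (0 : ℝ) < a - 3 := by linarith
  have hx1 : 1 + 6 / ((a : ℝ) - 3) ≤ x := by
    refine le_trans (le_of_eq ?_) hx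
    field_simp
    ring
  have hpos : 0 < 6 / ((a : ℝ) - 3) := by positivity
  have hx0 : 0 < x := by linarith
  have hlog : 6 / (a : ℝ) ≤ Real.log x := by
    have h1 := Real.le_log_one_add_of_nonneg hpos.le
    have h2 : Real.log (1 + 6 / ((a : ℝ) - 3)) ≤ Real.log x :=
      Real.log_le_log (by positivity) hx1
    refine le_trans (le_of_eq ?_) (h1.trans h2)
    field_simp
    ring
  obtain ⟨y, hy⟩ : ∃ y : ℝ, y = a * Real.log x := ⟨_, rfl⟩
  have hy6 : 6 ≤ y := by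
    rw [hy]
    rw [div_le_iff₀ (by linarith)] at hlog
    linarith
  have hlx : Real.log x = y / a := by
    rw [hy]
    field_simp
  have hxe : x = Real.exp (y / a) := by rw [← hlx, Real.exp_log hx0]
  have hxa : x ^ a = Real.exp y := by
    rw [hy, mul_comm, Real.exp_mul, Real.exp_log hx0, Real.rpow_natCast]
  have hB : (a : ℝ) * (x - 1) ≤ y * (1 + Real.exp (y / 16)) / 2 := by
    have h1 := Ws_trap (show 0 ≤ y / (a : ℝ) by positivity)
    rw [← hxe] at h1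
    have h2 : x ≤ Real.exp (y / 16) := by
      rw [hxe]
      apply Real.exp_le_exp.2
      apply div_le_div_of_nonneg_left (by linarith) (by norm_num) ha'
    have h3 : (a : ℝ) * (x - 1) ≤ a * (y / a * (1 + x) / 2) :=
      mul_le_mul_of_nonneg_left h1 (by linarith)
    have h4 : (a : ℝ) * (y / a * (1 + x) / 2) = y * (1 + x) / 2 := by
      field_simp
    have h5 : y * (1 + x) ≤ y * (1 + Real.exp (y / 16)) :=
      mul_le_mul_of_nonneg_left (by linarith) (by linarith)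
    linarith
  have hend := Ws_end hy6
  have hBy : (33 / 4 * y + 1) * ((a : ℝ) * (x - 1)) ≤
      (33 / 4 * y + 1) * (y * (1 + Real.exp (y / 16)) / 2) :=
    mul_le_mul_of_nonneg_left hB (by linarith)
  have hkey : (33 / 4 * y + 1) * ((a : ℝ) * (x - 1)) + 1 ≤ x ^ a := by
    rw [hxa]
    nlinarith
  unfold gg
  rw [hlx]
  have e1 : 33 / 4 * (a : ℝ) * ((x - 1) * (y / a)) =
      ((33 / 4 * y) * ((a : ℝ) * (x - 1))) / a := by
    field_simp
  have e2 : (x ^ a - 1) / (a : ℝ) - (x - 1) = (x ^ a - 1 - a * (x - 1)) / a := by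
    field_simp
  rw [e1, e2]
  apply div_le_div_of_nonneg_right _ (by linarith)
  linarith

theorem wstar {a : ℕ} (ha : 4 ≤ a) {x : ℝ} (hx : ((a : ℝ) + 3) / (a - 3) ≤ x) :
    33 / 4 * a * ((x - 1) * Real.log x) ≤ gg a x := by
  rcases le_or_gt 16 a with h | h
  · exact Ws_big h hx
  · interval_cases a
    · exact Ws_fin (by norm_num) (by norm_num at hx ⊢; linarith) (by simpa using Ws_4 (by norm_num at hx; linarith))
    · exact Ws_fin (by norm_num) (by norm_num at hx ⊢; linarith) (by simpa using Ws_5 (by norm_num at hx; linarith))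
    · exact Ws_fin (by norm_num) (by norm_num at hx ⊢; linarith) (by simpa using Ws_6 (by norm_num at hx; linarith))
    · exact Ws_fin (by norm_num) (by norm_num at hx ⊢; linarith) (by simpa using Ws_7 (by norm_num at hx; linarith))
    · exact Ws_fin (by norm_num) (by norm_num at hx ⊢; linarith) (by simpa using Ws_8 (by norm_num at hx; linarith))
    · exact Ws_fin (by norm_num) (by norm_num at hx ⊢; linarith) (by simpa using Ws_9 (by norm_num at hx; linarith))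
    · exact Ws_fin (by norm_num) (by norm_num at hx ⊢; linarith) (by simpa using Ws_10 (by norm_num at hx; linarith))
    · exact Ws_fin (by norm_num) (by norm_num at hx ⊢; linarith) (by simpa using Ws_11 (by norm_num at hx; linarith))
    · exact Ws_fin (by norm_num) (by norm_num at hx ⊢; linarith) (by simpa using Ws_12 (by norm_num at hx; linarith))
    · exact Ws_fin (by norm_num) (by norm_num at hx ⊢; linarith) (by simpa using Ws_13 (by norm_num at hx; linarith))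
    · exact Ws_fin (by norm_num) (by norm_num at hx ⊢; linarith) (by simpa using Ws_14 (by norm_num at hx; linarith))
    · exact Ws_fin (by norm_num) (by norm_num at hx ⊢; linarith) (by simpa using Ws_15 (by norm_num at hx; linarith))

end Pool.Agent.W_bbc525_e2
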