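import Pool.Agent.W_bbc525_e2.Ke
import Pool.Agent.W_bbc525_e2.Mg
import Pool.Agent.W_bbc525_e2.Ps
import Pool.Agent.W_bbc525_e2.Dd
import Pool.Agent.W_bbc525_e2.Ws

/-!
# The excess of an edge, with the Huber function; the pointwise inequality
-/

set_option autoImplicit false

namespace Pool.Agent.W_bbc525_e2

open MeasureTheory Finset Pool.Agent.W_MP_bbc525_pr Pool.Agent.W_bbc525_h89 Pool.Agent.W_bbc525_td
  Pool.Agent.W_bbc525_ends

/-- the loss of an edge with degrees `b ≤ a`, as a function of the deficit -/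
noncomputable def lossf (a b : ℕ) (t : ℝ) : ℝ :=
  if b = a then 0 else if 2 * b < a then 3 * hub (a * t) + (1 / 2) * max (a * t - 1) 0
  else hub (a * t)

theorem lossf_zero (a b : ℕ) : lossf a b 0 = 0 := by
  have h : hub ((a : ℝ) * 0) = 0 := by
    unfold hub
    rw [mul_zero, if_pos zero_le_one]
    norm_num
  have h2 : max ((a : ℝ) * 0 - 1) 0 = 0 := by
    rw [mul_zero]
    exact max_eq_right (by norm_num)
  unfold lossf
  rw [h, h2]
  split_ifs <;> norm_num

theorem BK.lossf' {f : unitInterval → unitInterval → ℝ} (hf : BK f) (h0 : ∀ x y, 0 ≤ f x y)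
    (a b : ℕ) : BK (fun x y => lossf a b (f x y)) := by
  have h1 : BK (fun x y => (a : ℝ) * f x y) := BK.const_mul a hf
  have h2 := BK.hub' h1 (fun x y => mul_nonneg (Nat.cast_nonneg a) (h0 x y))
  unfold lossf
  split_ifs
  · exact BK.const 0
  · exact (BK.const_mul 3 h2).add (BK.const_mul (1 / 2) (h1.sub (BK.const 1)).maxz)
  · exact h2

section edge

variable {W : Graphon} {q : ℝ}

/-- **The excess of an edge.** -/
theorem exc2 (hq : 0 < q) {a b : ℕ} (hb : 0 < b) (hba : b ≤ a)
    (hR : 0 < mix W a b / q ^ a) :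
    Exc W q a b ≤ mix W a b / q ^ a - 1 - Real.log (mix W a b / q ^ a) +
      ∫ x, ∫ y, lossf a b (max (1 - W.W x y / q) 0) := by
  have hb' : (0 : ℝ) < b := by exact_mod_cast hb
  have ha0 : 0 < a := lt_of_lt_of_le hb hba
  have ha' : (0 : ℝ) < a := by exact_mod_cast ha0
  rcases hba.eq_or_lt with heq | hlt
  · rw [heq] at hR ⊢
    rw [Exc_self a ha0]
    have h1 := Real.log_le_sub_one_of_pos hR
    have h2 : ∀ t, lossf a a t = 0 := fun t => by
      unfold lossf
      simp
    simp only [h2, integral_zero]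
    linarith
  have hθ1 : 1 < (a : ℝ) / b := by
    rw [lt_div_iff₀ hb', one_mul]
    exact_mod_cast hlt
  obtain ⟨θ, hθ⟩ : ∃ θ, θ = (a : ℝ) / b := ⟨_, rfl⟩
  rw [← hθ] at hθ1
  have hθb : θ * b = a := by
    rw [hθ]
    field_simp
  have hexc := exc_eq (W := W) hq hb hba
  have hY := BK.YY (W := W) hq b
  have h0 := YY_nonneg (W := W) hq b
  have hsym := YY_symm (W := W) (q := q) b
  have hmix := mixS_eq (W := W) hq (a := a) hb
  have hP : ∫ x, ∫ y, YY W q b x y ^ θ = W.mom a / q ^ a := by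
    have e4 : ∀ x y, YY W q b x y ^ θ = YY W q a x y := fun x y => by
      rw [hθ]
      exact YY_rpow hq hb x y
    simp only [e4]
    exact YY_mom hq a
  have hm := YY_mom (W := W) hq b
  have hexc' : Exc W q a b = mix W a b / q ^ a - 1 - (1 / 2) * (W.mom a / q ^ a - 1) -
      (1 / 2) * θ * (W.mom b / q ^ b - 1) := by
    have h1 : a * ((mix W a b / q ^ a - 1) / a) = a * ((1 / 2) * ((W.mom a / q ^ a - 1) / a) +
      (1 / 2) * ((W.mom b / q ^ b - 1) / b) + Exc W q a b / a) := by rw [hexc]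
    rw [mul_div_cancel₀ _ ha'.ne'] at h1
    have h2 : a * ((1 / 2) * ((W.mom a / q ^ a - 1) / a) +
      (1 / 2) * ((W.mom b / q ^ b - 1) / b) + Exc W q a b / a) =
      (1 / 2) * (W.mom a / q ^ a - 1) + (1 / 2) * (a / b) * (W.mom b / q ^ b - 1) +
        Exc W q a b := by
      field_simp
    rw [h2, ← hθ] at h1
    linarith
  rw [← hθ] at hmix
  -- the deficit
  have hδ : BK (fun x y => max (1 - W.W x y / q) 0) := BK.dfk hq
  have hδ0 : ∀ x y, 0 ≤ max (1 - W.W x y / q) 0 := fun _ _ => le_max_right _ _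
  have hδY : BK (fun x y => max (1 - YY W q b x y) 0) := ((BK.const 1).sub hY).maxz
  have hδY0 : ∀ x y, 0 ≤ max (1 - YY W q b x y) 0 := fun _ _ => le_max_right _ _
  have hpt : ∀ x y, max (1 - YY W q b x y) 0 ≤ b * max (1 - W.W x y / q) 0 := fun x y =>
    dfk_pow (div_nonneg (W.nonneg x y) hq.le) b
  have haδ : BK (fun x y => (a : ℝ) * max (1 - W.W x y / q) 0) := BK.const_mul (a : ℝ) hδ
  have haδ0 : ∀ x y, 0 ≤ (a : ℝ) * max (1 - W.W x y / q) 0 := fun x y =>
    mul_nonneg ha'.le (hδ0 x y)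
  have hne : b ≠ a := by omega
  rcases le_or_gt θ 2 with h2 | h2
  · -- ratio at most two
    have hab : ¬ 2 * b < a := by
      intro h3
      have h4 : (2 : ℝ) * b < a := by exact_mod_cast h3
      rw [← hθb] at h4
      nlinarith
    have hl : ∀ t, lossf a b t = hub (a * t) := fun t => by
      unfold lossf
      rw [if_neg hne, if_neg hab]
    simp only [hl]
    -- positivity of the mean
    have hm0 : 0 < W.mom b / q ^ b := by
      have hm1 : 0 ≤ W.mom b / q ^ b := by
        rw [← hm]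
        exact integral_nonneg fun x => integral_nonneg fun y => h0 x y
      rcases hm1.eq_or_lt with h3 | h3
      · exfalso
        have hr : BF (fun x => ∫ y, YY W q b x y) := hY.iter'
        have hr0 : ∀ x, 0 ≤ ∫ y, YY W q b x y := fun x => integral_nonneg fun y => h0 x y
        obtain ⟨C, hC⟩ := hr.bdd
        have h4 : ∫ x, (∫ y, YY W q b x y) ^ θ ≤ ∫ x, C ^ (θ - 1) * ∫ y, YY W q b x y := by
          apply integral_mono (hr.rpow hr0 (by linarith)).integrable
            (BF.const_mul _ hr).integrable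
          intro x
          simp only
          rw [← rpow_sub_mul hθ1 (hr0 x)]
          apply mul_le_mul_of_nonneg_right _ (hr0 x)
          exact Real.rpow_le_rpow (hr0 x) ((le_abs_self _).trans (hC x)) (by linarith)
        rw [integral_const_mul, hm, ← h3, mul_zero, hmix] at h4
        linarith
      · exact h3
    obtain ⟨D, hD⟩ : ∃ D, D = ∫ x, ∫ y, max (1 - YY W q b x y) 0 := ⟨_, rfl⟩
    have hD0 : 0 ≤ D := by
      rw [hD]
      exact integral_nonneg fun x => integral_nonneg fun y => hδY0 x y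
    have hD1 : D ≤ 1 := by
      have h3 := BK.int_mono hδY (BK.const 1) (fun x y =>
        max_le (by linarith [h0 x y]) zero_le_one)
      rw [← hD] at h3
      simpa using h3
    have h3 : 1 - W.mom b / q ^ b ≤ D := by
      have h4 := BK.int_mono ((BK.const 1).sub hY) hδY (fun x y => le_max_left _ _)
      rw [BK.int_sub (BK.const 1) hY, hm, ← hD] at h4
      simpa using h4
    have h4 := key_le_two hY h0 hsym hθ1 h2 hm.symm hm0 hD0 h3
    rw [hmix, hP] at h4
    have h5 : (1 / 2) * D ^ 2 ≤ ∫ x, ∫ y, hub (a * max (1 - W.W x y / q) 0) := by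
      have h6 : hub D = (1 / 2) * D ^ 2 := by
        unfold hub
        rw [if_pos hD1]
        ring
      rw [← h6]
      refine (hub_int hδY hδY0 hD0 hD.le).trans ?_
      apply BK.int_mono (BK.hub' hδY hδY0) (BK.hub' haδ haδ0)
      intro x y
      apply hub_mono (hδY0 x y)
      refine (hpt x y).trans ?_
      apply mul_le_mul_of_nonneg_right _ (hδ0 x y)
      exact_mod_cast hba
    rw [hexc']
    linarith
  · -- ratio larger than two
    have hab : 2 * b < a := by
      have h4 : (2 : ℝ) * b < a := by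
        rw [← hθb]
        nlinarith
      exact_mod_cast h4
    have hl : ∀ t, lossf a b t = 3 * hub (a * t) + (1 / 2) * max (a * t - 1) 0 := fun t => by
      unfold lossf
      rw [if_neg hne, if_pos hab]
    simp only [hl]
    have hR' : 0 < ∫ x, (∫ y, YY W q b x y) ^ θ := by
      rw [hmix]
      exact hR
    have h4 := key2 hY h0 hsym h2 hm.symm hR'
    rw [hmix, hP] at h4
    have hθδ : BK (fun x y => θ * max (1 - YY W q b x y) 0) := BK.const_mul θ hδY
    have hθδ0 : ∀ x y, 0 ≤ θ * max (1 - YY W q b x y) 0 := fun x y =>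
      mul_nonneg (by linarith) (hδY0 x y)
    have hcmp : ∀ x y, θ * max (1 - YY W q b x y) 0 ≤ a * max (1 - W.W x y / q) 0 := by
      intro x y
      have h5 := mul_le_mul_of_nonneg_left (hpt x y) (by linarith : 0 ≤ θ)
      rwa [← mul_assoc, hθb] at h5
    have h5 : ∫ x, ∫ y, hub (θ * max (1 - YY W q b x y) 0) ≤
        ∫ x, ∫ y, hub (a * max (1 - W.W x y / q) 0) :=
      BK.int_mono (BK.hub' hθδ hθδ0) (BK.hub' haδ haδ0) (fun x y =>
        hub_mono (hθδ0 x y) (hcmp x y))
    have h6 : ∫ x, ∫ y, max (θ * max (1 - YY W q b x y) 0 - 1) 0 ≤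
        ∫ x, ∫ y, max (a * max (1 - W.W x y / q) 0 - 1) 0 :=
      BK.int_mono (hθδ.sub (BK.const 1)).maxz (haδ.sub (BK.const 1)).maxz (fun x y =>
        max_le_max (by linarith [hcmp x y]) le_rfl)
    rw [BK.int_add (BK.const_mul 3 (BK.hub' haδ haδ0))
      (BK.const_mul (1 / 2) (haδ.sub (BK.const 1)).maxz), BK.int_mul, BK.int_mul, hexc']
    linarith

end edge

/-- loss plus the vertex function below `1` -/
theorem loss_Mg {a b : ℕ} (hb : 1 ≤ b) (hba : b ≤ a) {t : ℝ} (ht : 0 ≤ t) (ht1 : t ≤ 1) :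
    lossf a b t / a + (gg a (1 - t) + gg b (1 - t)) / 2 ≤ Mg (a * t) / a := by
  have ha : 1 ≤ a := hb.trans hba
  have ha' : (0 : ℝ) < a := by exact_mod_cast (by omega : 0 < a)
  have hb' : (0 : ℝ) < b := by exact_mod_cast (by omega : 0 < b)
  have h1 := psi_hub ha ht ht1
  have h2 := psi_hub hb ht ht1
  have h3 := hub_nonneg ((a : ℝ) * t)
  have h4 : 0 ≤ hub ((a : ℝ) * t / 2) := hub_nonneg _
  have h5 : 0 ≤ max ((a : ℝ) * t - 1) 0 := le_max_right _ _
  have hM : Mg (a * t) / a = (7 / 2) * (hub (a * t) / a) + hub (a * t / 2) / a +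
      (1 / 2) * (max (a * t - 1) 0 / a) := by
    unfold Mg
    field_simp
  have h3' : 0 ≤ hub ((a : ℝ) * t) / a := div_nonneg h3 ha'.le
  have h4' : 0 ≤ hub ((a : ℝ) * t / 2) / a := div_nonneg h4 ha'.le
  have h5' : 0 ≤ max ((a : ℝ) * t - 1) 0 / a := div_nonneg h5 ha'.le
  have h6 : hub (b * t) / b ≤ hub (a * t) / a := hub_scale hb' (by exact_mod_cast hba) ht
  rw [hM]
  unfold lossf
  split_ifs with c1 c2
  · rw [zero_div]
    linarith
  · have h7 : hub (b * t) / b ≤ hub ((a : ℝ) / 2 * t) / (a / 2) := by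
      apply hub_scale hb' _ ht
      have : (2 : ℝ) * b < a := by exact_mod_cast c2
      linarith
    have e1 : (a : ℝ) / 2 * t = a * t / 2 := by ring
    have e2 : hub ((a : ℝ) * t / 2) / ((a : ℝ) / 2) = 2 * (hub (a * t / 2) / a) := by
      field_simp
    rw [e1, e2] at h7
    have e3 : (3 * hub (a * t) + (1 / 2) * max (a * t - 1) 0) / a =
        3 * (hub (a * t) / a) + (1 / 2) * (max (a * t - 1) 0 / a) := by
      field_simp
    rw [e3]
    linarith
  · linarith

/-- **the pointwise inequality of an edge** -/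
theorem edge_pt {a b : ℕ} (hb : 1 ≤ b) (hba : b ≤ a) (ha : 4 ≤ a) {q t : ℝ} (hq : 0 < q)
    (hq1 : q < 1) (hqa : q * (a + 3) ≤ a - 3) (ht : 0 ≤ t) (ht1 : t ≤ 1) :
    (lossf a b t / a + (gg a (1 - t) + gg b (1 - t)) / 2) * Real.log (1 / q) ≤
      98 / 99 * ((gg a (1 / q) + gg b (1 / q)) / 2) * dd q (1 - t) := by
  have ha' : (4 : ℝ) ≤ a := by exact_mod_cast ha
  have ha0 : (0 : ℝ) < a := by linarith
  have h1q : 0 < 1 - q := by linarith
  obtain ⟨s, hs⟩ : ∃ s, s = q / (1 - q) := ⟨_, rfl⟩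
  have hs0 : 0 < s := by
    rw [hs]
    exact div_pos hq h1q
  have hs6 : s ≤ a / 6 := by
    rw [hs, div_le_iff₀ h1q]
    nlinarith
  obtain ⟨x, hx⟩ : ∃ x, x = 1 / q := ⟨_, rfl⟩
  have hx1 : 1 < x := by
    rw [hx, lt_div_iff₀ hq]
    linarith
  have hxs : x - 1 = 1 / s := by
    rw [hx, hs]
    field_simp
  have hxa : ((a : ℝ) + 3) / (a - 3) ≤ x := by
    rw [hx, div_le_div_iff₀ (by linarith) hq]
    linarith
  have hlog : 0 < Real.log x := Real.log_pos hx1
  have hw := wstar ha hxa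
  have hdd := dd_lower hq hq1 ht ht1
  rw [← hs] at hdd
  rw [← hx]
  have hM := loss_Mg hb hba ht ht1
  have hMg := Mg_le (mul_nonneg ha0.le ht)
  have hgb : 0 ≤ gg b x := gg_nonneg (by omega) (by linarith)
  obtain ⟨g, hg⟩ : ∃ g, g = (a : ℝ) * t := ⟨_, rfl⟩
  have hg0 : 0 ≤ g := by
    rw [hg]
    exact mul_nonneg ha0.le ht
  rw [← hg] at hM hMg
  have h18 : 0 < 18 + g := by linarith
  have hMg' : Mg g ≤ 147 / 4 * g ^ 2 / (18 + g) := by
    rw [le_div_iff₀ h18]
    exact hMg
  -- the lower bound of the right side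
  have hd1 : (1 / 2) * s * t ^ 2 * (18 / (18 + g)) ≤ dd q (1 - t) := by
    refine le_trans ?_ hdd
    rw [div_eq_mul_inv ((1 / 2) * s * t ^ 2)]
    apply mul_le_mul_of_nonneg_left _ (by positivity)
    rw [← one_div, div_le_div_iff₀ h18 (by positivity)]
    have : s * t ≤ a / 6 * t := mul_le_mul_of_nonneg_right hs6 ht
    rw [hg]
    nlinarith
  have hG : 33 / 8 * a * (1 / s * Real.log x) ≤ (gg a x + gg b x) / 2 := by
    rw [← hxs]
    linarith
  have hG0 : 0 ≤ 33 / 8 * a * (1 / s * Real.log x) := by positivity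
  have hR := mul_le_mul hG hd1 (by positivity) (hG0.trans hG)
  have e1 : 33 / 8 * a * (1 / s * Real.log x) * ((1 / 2) * s * t ^ 2 * (18 / (18 + g))) =
      297 / 8 * a * t ^ 2 / (18 + g) * Real.log x := by
    field_simp
    ring
  rw [e1] at hR
  have hL : (lossf a b t / a + (gg a (1 - t) + gg b (1 - t)) / 2) * Real.log x ≤
      147 / 4 * a * t ^ 2 / (18 + g) * Real.log x := by
    apply mul_le_mul_of_nonneg_right _ hlog.le
    refine hM.trans ?_
    have h2 := div_le_div_of_nonneg_right hMg' ha0.le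
    refine h2.trans (le_of_eq ?_)
    rw [hg]
    field_simp
  refine hL.trans ?_
  have e2 : 147 / 4 * a * t ^ 2 / (18 + g) * Real.log x =
      98 / 99 * (297 / 8 * a * t ^ 2 / (18 + g) * Real.log x) := by ring
  rw [e2]
  have := mul_le_mul_of_nonneg_left hR (by norm_num : (0 : ℝ) ≤ 98 / 99)
  linarith

end Pool.Agent.W_bbc525_e2
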