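import Pool.Agent.W_bbc525_e2.H0

/-!
# The scalar inequality, sharper form
-/

set_option autoImplicit false

namespace Pool.Agent.W_bbc525_e2

open Pool.Agent.W_bbc525_ends

/-- the final inequality between numbers -/
theorem fin2 {θ n P ρ μ τ d Pm E R : ℝ} (hθ : 2 < θ) (hn : n = θ / (θ - 1))
    (hρ : 0 ≤ ρ) (hμ : 0 ≤ μ) (hτ : 0 ≤ τ) (hd : 0 ≤ d)
    (hE1 : E ≤ Dl n (1 + μ) (1 + μ)) (hE2 : E ≤ n * ρ * μ) (hP1 : ρ + μ ≤ P)
    (hP2 : (1 + μ) ^ n - 1 ≤ P) (hPm : Pm ≤ τ + d)
    (hR : R = 1 + P - Pm) (hR0 : 0 < R) :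
    (1 / 2) * (θ - 1) * E - θ * ρ * τ ≤
      R - 1 - Real.log R + (1 / 2) * (τ + d) ^ 2 + (1 / 2) * θ * d ^ 2 := by
  have hθ1 : 0 < θ - 1 := by linarith
  have hθ0 : 0 < θ := by linarith
  have hn1 : 1 < n := by
    rw [hn, lt_div_iff₀ hθ1]
    linarith
  have hn2 : n ≤ 2 := by
    rw [hn, div_le_iff₀ hθ1]
    linarith
  have hnθ : (θ - 1) * n = θ := by
    rw [hn]
    field_simp
  have hP0 : 0 ≤ P := by linarith
  have hP' : 0 < 1 + P := by linarith
  set A := P / (1 + P) with hA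
  have hA0 : 0 ≤ A := div_nonneg hP0 hP'.le
  have hAP : A ≤ P := div_le_self hP0 (by linarith)
  -- the tangent of the logarithm
  have h1 : Real.log R ≤ Real.log (1 + P) + (R / (1 + P) - 1) := by
    have h2 := Real.log_le_sub_one_of_pos (div_pos hR0 hP')
    rw [Real.log_div hR0.ne' hP'.ne'] at h2
    linarith
  have h2 : R / (1 + P) - 1 = - Pm / (1 + P) := by
    rw [hR]
    field_simp
    ring
  have h3 : Pm * A = Pm - Pm / (1 + P) := by
    rw [hA]
    field_simp
    ring
  have h4 : (P - Real.log (1 + P)) - Pm * A ≤ R - 1 - Real.log R := by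
    rw [h2] at h1
    rw [h3, hR] at *
    have : - Pm / (1 + P) = - (Pm / (1 + P)) := by ring
    rw [this] at h1
    linarith
  have h5 : Pm * A ≤ (τ + d) * A := mul_le_mul_of_nonneg_right hPm hA0
  -- the function `a`
  set ψ := (1 + μ) ^ n - 1 with hψ
  have hψ0 : 0 ≤ ψ := by
    have : (1:ℝ) ≤ (1 + μ) ^ n := Real.one_le_rpow (by linarith) (by linarith)
    linarith
  set a := ψ / (1 + ψ) with ha
  have ha0 : 0 ≤ a := div_nonneg hψ0 (by linarith)
  have haA : a ≤ A := by
    rw [ha, hA, div_le_div_iff₀ (by linarith only [hψ0]) hP']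
    linarith only [hP2]
  have hae : 1 - (1 + μ) ^ (-n) = a := by
    rw [Real.rpow_neg (by linarith only [hμ]), ha]
    have e : 1 + ψ = (1 + μ) ^ n := by rw [hψ]; ring
    have e0 : (0:ℝ) < (1 + μ) ^ n := Real.rpow_pos_of_pos (by linarith only [hμ]) n
    rw [e, hψ]
    field_simp
  have h6 := dl_slack hn1 hn2 (by linarith only [hμ] : 1 ≤ 1 + μ)
  rw [hae] at h6
  have e6 : n * Real.log (1 + μ) = Real.log (1 + ψ) := by
    have e : 1 + ψ = (1 + μ) ^ n := by rw [hψ]; ring
    rw [e, Real.log_rpow (by linarith only [hμ])]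
  rw [e6] at h6
  have e7 : 1 / (2 * (n - 1)) = (1 / 2) * (θ - 1) := by
    have : n - 1 = 1 / (θ - 1) := by
      rw [hn]
      field_simp
      ring
    rw [this]
    field_simp
  have e8 : (n - 1) / (2 * n) = 1 / (2 * θ) := by
    have : n - 1 = n / θ := by
      rw [hn]
      field_simp
      ring
    rw [this]
    field_simp
  rw [e7, e8] at h6
  have h7 := om_diff hψ0 hP2
  rw [← hA, ← ha] at h7
  -- (S): the slack inequality
  have h8 : (1 / 2) * (θ - 1) * E ≤ (P - Real.log (1 + P)) - (1 / 2) * (A ^ 2 - a ^ 2) -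
      1 / (2 * θ) * a ^ 2 := by
    have := mul_le_mul_of_nonneg_left hE1 (by linarith only [hθ1] : 0 ≤ (1 / 2) * (θ - 1))
    linarith only [h6, h7, this]
  have h9 := om_ge hP0
  rw [← hA] at h9
  set b := θ * ρ with hb
  have hb0 : 0 ≤ b := mul_nonneg hθ0.le hρ
  have hi : 0 < 1 / (2 * θ) := by positivity
  have hi2 : 1 / (2 * θ) < 1 / 2 := by
    rw [div_lt_div_iff₀ (by positivity) (by norm_num)]
    linarith only [hθ1]
  -- reduction
  have h10 : (1 / 2) * (θ - 1) * E + (τ + d) * A - b * τ ≤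
      (P - Real.log (1 + P)) + (1 / 2) * (τ + d) ^ 2 + (1 / 2) * θ * d ^ 2 := by
    rcases le_or_gt b A with hbA | hbA
    · have h12 : (τ + d) * A - b * τ ≤ (1 / 2) * (τ + d) ^ 2 + (1 / 2) * (A - b) ^ 2 +
          (1 / 2) * θ * d ^ 2 + 1 / (2 * θ) * b ^ 2 := by
        have e : (τ + d) * A - b * τ = (τ + d) * (A - b) + d * b := by ring
        rw [e]
        have h13 : d * b ≤ (1 / 2) * θ * d ^ 2 + 1 / (2 * θ) * b ^ 2 := by
          have e2 : (1 / 2) * θ * d ^ 2 + 1 / (2 * θ) * b ^ 2 - d * b =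
              (θ * d - b) ^ 2 / (2 * θ) := by
            field_simp
            ring
          have e3 : 0 ≤ (θ * d - b) ^ 2 / (2 * θ) := by positivity
          linarith only [e2, e3]
        linarith only [h13, sq_nonneg ((τ + d) - (A - b))]
      have h14 : (1 / 2) * (θ - 1) * E + (1 / 2) * (A - b) ^ 2 + 1 / (2 * θ) * b ^ 2 ≤
          P - Real.log (1 + P) := by
        rcases le_or_gt a b with hab | hab
        · have h15 : a ^ 2 ≤ b ^ 2 := pow_le_pow_left₀ ha0 hab 2
          have h16 : b ^ 2 ≤ A * b := by nlinarith only [hb0, hbA]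
          have h17 : (1 / 2 - 1 / (2 * θ)) * a ^ 2 ≤ (1 / 2 - 1 / (2 * θ)) * b ^ 2 :=
            mul_le_mul_of_nonneg_left h15 (by linarith only [hi2])
          linarith only [h8, h16, h17]
        · have h15 : (1 / 2) * (θ - 1) * E ≤ (1 / 2) * b * μ := by
            have := mul_le_mul_of_nonneg_left hE2 (by linarith only [hθ1] : 0 ≤ (1 / 2) * (θ - 1))
            have e : (1 / 2) * (θ - 1) * (n * ρ * μ) = (1 / 2) * ((θ - 1) * n) * ρ * μ := by ring
            rw [e, hnθ] at this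
            rw [hb]
            linarith only [this]
          have h16 : (1 / 2) * b * μ ≤ (1 / 2) * b * (P - ρ) :=
            mul_le_mul_of_nonneg_left (by linarith only [hP1]) (by linarith only [hb0])
          have e2 : (1 / 2) * b * ρ = 1 / (2 * θ) * b ^ 2 := by
            rw [hb]
            field_simp
          have h17 : 0 ≤ (A - b) * (P - (A - b)) :=
            mul_nonneg (by linarith only [hbA]) (by linarith only [hAP, hb0])
          linarith only [h9, h15, h16, e2, h17]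
      linarith only [h12, h14]
    · have h12 : (τ + d) * A - b * τ ≤ d * A := by nlinarith only [hτ, hbA]
      have h13 : d * A ≤ (1 / 2) * θ * d ^ 2 + 1 / (2 * θ) * A ^ 2 := by
        have e2 : (1 / 2) * θ * d ^ 2 + 1 / (2 * θ) * A ^ 2 - d * A =
            (θ * d - A) ^ 2 / (2 * θ) := by
          field_simp
          ring
        have e3 : 0 ≤ (θ * d - A) ^ 2 / (2 * θ) := by positivity
        linarith only [e2, e3]
      have h15 : a ^ 2 ≤ A ^ 2 := pow_le_pow_left₀ ha0 haA 2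
      have h17 : (1 / 2 - 1 / (2 * θ)) * a ^ 2 ≤ (1 / 2 - 1 / (2 * θ)) * A ^ 2 :=
        mul_le_mul_of_nonneg_left h15 (by linarith only [hi2])
      have h18 : 0 ≤ (1 / 2) * (τ + d) ^ 2 := by positivity
      linarith only [h8, h12, h13, h17, h18]
  have e11 : θ * ρ * τ = b * τ := by rw [hb]
  rw [e11]
  linarith only [h4, h5, h10]

end Pool.Agent.W_bbc525_e2
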