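import Pool.Agent.W_bbc525_ends.SJ

/-!
# The Huber function

`hub g = g ^ 2 / 2` for `g ≤ 1` and `g - 1 / 2` for `g ≥ 1`.
-/

set_option autoImplicit false

namespace Pool.Agent.W_bbc525_e2

/-- the Huber function -/
noncomputable def hub (g : ℝ) : ℝ := if g ≤ 1 then g ^ 2 / 2 else g - 1 / 2

theorem hub_nonneg (g : ℝ) : 0 ≤ hub g := by
  unfold hub
  split_ifs with h
  · positivity
  · linarith [not_le.1 h]

/-- the tangents of the Huber function -/
theorem hub_tangent {c : ℝ} (h0 : 0 ≤ c) (h1 : c ≤ 1) (g : ℝ) : c * g - c ^ 2 / 2 ≤ hub g := by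
  unfold hub
  split_ifs with h
  · nlinarith [sq_nonneg (g - c)]
  · have h' := not_le.1 h
    nlinarith

theorem hub_eq {g : ℝ} (hg : 0 ≤ g) : ∃ c : ℝ, 0 ≤ c ∧ c ≤ 1 ∧ hub g = c * g - c ^ 2 / 2 := by
  unfold hub
  split_ifs with h
  · exact ⟨g, hg, h, by ring⟩
  · exact ⟨1, zero_le_one, le_rfl, by ring⟩

theorem hub_mono {g h : ℝ} (hg : 0 ≤ g) (hgh : g ≤ h) : hub g ≤ hub h := by
  obtain ⟨c, h0, h1, he⟩ := hub_eq hg
  rw [he]
  refine le_trans ?_ (hub_tangent h0 h1 h)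
  have := mul_le_mul_of_nonneg_left hgh h0
  linarith

/-- `hub (b t) / b` is increasing in `b` -/
theorem hub_scale {a b t : ℝ} (hb : 0 < b) (hba : b ≤ a) (ht : 0 ≤ t) :
    hub (b * t) / b ≤ hub (a * t) / a := by
  have ha : 0 < a := lt_of_lt_of_le hb hba
  obtain ⟨c, h0, h1, he⟩ := hub_eq (mul_nonneg hb.le ht)
  have h2 := hub_tangent h0 h1 (a * t)
  have h3 := div_le_div_of_nonneg_right h2 ha.le
  refine le_trans ?_ h3
  rw [he]
  have e1 : (c * (b * t) - c ^ 2 / 2) / b = c * t - c ^ 2 / (2 * b) := by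
    field_simp
  have e2 : (c * (a * t) - c ^ 2 / 2) / a = c * t - c ^ 2 / (2 * a) := by
    field_simp
  rw [e1, e2]
  have h4 : c ^ 2 / (2 * a) ≤ c ^ 2 / (2 * b) := by
    apply div_le_div_of_nonneg_left (sq_nonneg c) (by positivity)
    linarith
  linarith

end Pool.Agent.W_bbc525_e2
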