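import Pool.Agent.W_bbc525_e2.H0

/-!
# Scalar inequality for the rows below the mean

For `θ ≥ 2`, `0 ≤ d ≤ 1`, `0 ≤ τ ≤ 1`, `τ ≤ (θ - 1) d`:
`(1/2) (τ + d)^2 + (1/2) θ d^2 + (θ - 1) τ d ≤ 3 hub (θ d)` (numerically checked).

PROOF. The left side is increasing in `τ`. Write `L(τ)` for it.
(1) `(θ - 1) d ≤ 1`: replace `τ` by `(θ - 1) d`: `L = (θ^2 / 2 + θ / 2 + (θ - 1)^2) d^2`.
 If `θ d ≤ 1`: `3 hub (θ d) = (3/2) θ^2 d^2` and `θ^2/2 + θ/2 + (θ-1)^2 ≤ (3/2) θ^2` iff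
 `1 ≤ (3/2) θ`. If `θ d > 1`: `3 hub = 3 θ d - 3/2`; the convex function
 `f(d) = (θ^2/2 + θ/2 + (θ-1)^2) d^2 - 3 θ d + 3/2` is `≤ 0` at `d = 1/θ` and at
 `d = 1/(θ-1)` (there `(θ-1)^2 f = 5/2 ... = (5/2 - 3/2 * θ ...)`: a polynomial in `θ`, use
 `nlinarith`), so it is `≤ 0` on the interval `[1/θ, 1/(θ-1)]` which contains `d`
 (convex combination of the end points; e.g. `d = λ/θ + (1-λ)/(θ-1)`).
(2) `(θ - 1) d > 1` (then `θ d > 1`): replace `τ` by `1`: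
 `L = 1/2 + d^2/2 + θ d^2 / 2 + θ d`, and one needs `g(d) = (1/2)(1 + θ) d^2 - 2 θ d + 2 ≤ 0` on
 `[1/(θ-1), 1]`; `g` is convex and `g(1) = (5 - 3 θ)/2 < 0`,
 `(θ-1)^2 g(1/(θ-1)) = (5 - 3 θ)/2 < 0`.
-/

set_option autoImplicit false

namespace Pool.Agent.W_bbc525_e2

theorem phi_le {θ d τ : ℝ} (hθ : 2 ≤ θ) (hd : 0 ≤ d) (hd1 : d ≤ 1) (hτ : 0 ≤ τ) (hτ1 : τ ≤ 1)
    (hτd : τ ≤ (θ - 1) * d) :
    (1 / 2) * (τ + d) ^ 2 + (1 / 2) * θ * d ^ 2 + (θ - 1) * (τ * d) ≤ 3 * hub (θ * d) := by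
  have hθ0 : 0 < θ := by linarith
  -- monotone in `τ`
  have hmono : ∀ σ : ℝ, τ ≤ σ →
      (1 / 2) * (τ + d) ^ 2 + (1 / 2) * θ * d ^ 2 + (θ - 1) * (τ * d) ≤
        (1 / 2) * (σ + d) ^ 2 + (1 / 2) * θ * d ^ 2 + (θ - 1) * (σ * d) := by
    intro σ hσ
    have h1 : (τ + d) ^ 2 ≤ (σ + d) ^ 2 := pow_le_pow_left₀ (by linarith) (by linarith) 2
    have h2 : τ * d ≤ σ * d := mul_le_mul_of_nonneg_right hσ hd
    have h3 : (θ - 1) * (τ * d) ≤ (θ - 1) * (σ * d) :=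
      mul_le_mul_of_nonneg_left h2 (by linarith)
    linarith
  rcases le_or_gt ((θ - 1) * d) 1 with hA | hA
  · refine (hmono _ hτd).trans ?_
    unfold hub
    split_ifs with hB
    · nlinarith [sq_nonneg d, mul_nonneg hd hd]
    · have hB' := not_le.1 hB
      have hk : 0 ≤ (θ * d - 1) * (1 - (θ - 1) * d) :=
        mul_nonneg (by linarith) (by linarith)
      have hdd : 0 ≤ d * (1 - d) := mul_nonneg hd (by linarith)
      nlinarith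
  · refine (hmono _ hτ1).trans ?_
    unfold hub
    have hB : ¬ θ * d ≤ 1 := by
      intro h
      nlinarith
    rw [if_neg hB]
    have hk : 0 ≤ (1 - d) * ((θ - 1) * d - 1) := mul_nonneg (by linarith) (by linarith)
    have hdd : 0 ≤ d * (1 - d) := mul_nonneg hd (by linarith)
    nlinarith

end Pool.Agent.W_bbc525_e2
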