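import Pool.Agent.W_bbc525_e2.Pa
import Pool.Agent.W_bbc525_e2.Fs
import Pool.Agent.W_bbc525_e2.Ph

/-!
# The inequality of an edge, degree ratio larger than two, with the Huber function
-/

set_option autoImplicit false

namespace Pool.Agent.W_bbc525_e2

open MeasureTheory Pool.Agent.W_bbc525_ends

theorem measurable_hub : Measurable hub := by
  unfold hub
  exact Measurable.ite measurableSet_Iic (by fun_prop) (by fun_prop)

theorem hub_le {g : ℝ} (hg : 0 ≤ g) : hub g ≤ g := by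
  unfold hub
  split_ifs with h
  · nlinarith
  · linarith

theorem BK.hub' {f : unitInterval → unitInterval → ℝ} (hf : BK f) (h0 : ∀ x y, 0 ≤ f x y) :
    BK (fun x y => hub (f x y)) := by
  obtain ⟨C, hC⟩ := hf.bdd
  refine hf.comp measurable_hub ⟨C, fun x y => ?_⟩
  rw [abs_of_nonneg (hub_nonneg _)]
  exact (hub_le (h0 x y)).trans ((le_abs_self _).trans (hC x y))

/-- Jensen for the Huber function -/
theorem hub_int {f : unitInterval → unitInterval → ℝ} (hf : BK f) (h0 : ∀ x y, 0 ≤ f x y) {g : ℝ}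
    (hg : 0 ≤ g) (hgf : g ≤ ∫ x, ∫ y, f x y) : hub g ≤ ∫ x, ∫ y, hub (f x y) := by
  obtain ⟨c, hc0, hc1, he⟩ := hub_eq hg
  have h1 := BK.int_mono ((BK.const_mul c hf).sub (BK.const (c ^ 2 / 2))) (BK.hub' hf h0)
    (fun x y => hub_tangent hc0 hc1 (f x y))
  rw [BK.int_sub (BK.const_mul c hf) (BK.const _), BK.int_mul] at h1
  simp only [integral_const, probReal_univ, smul_eq_mul, one_mul] at h1
  rw [he]
  have := mul_le_mul_of_nonneg_left hgf hc0
  linarith

variable {Y : unitInterval → unitInterval → ℝ} {θ : ℝ}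

/-- **The inequality of an edge, ratio larger than two.** -/
theorem key2 {m : ℝ} (hY : BK Y) (h0 : ∀ x y, 0 ≤ Y x y) (hsym : ∀ x y, Y x y = Y y x)
    (hθ : 2 < θ) (hm : m = ∫ x, ∫ y, Y x y) (hR0 : 0 < ∫ x, (∫ y, Y x y) ^ θ) :
    Real.log (∫ x, (∫ y, Y x y) ^ θ) ≤ (1 / 2) * ((∫ x, ∫ y, Y x y ^ θ) - 1) +
      (1 / 2) * θ * (m - 1) + (3 * (∫ x, ∫ y, hub (θ * max (1 - Y x y) 0)) +
      (1 / 2) * ∫ x, ∫ y, max (θ * max (1 - Y x y) 0 - 1) 0) := by
  have hθ1 : 0 < θ - 1 := by linarith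
  have hθ0 : 0 < θ := by linarith
  obtain ⟨n, hn⟩ : ∃ n, n = θ / (θ - 1) := ⟨_, rfl⟩
  have hn1 : 1 < n := by
    rw [hn, lt_div_iff₀ hθ1]
    linarith
  have hn2 : n ≤ 2 := by
    rw [hn, div_le_iff₀ hθ1]
    linarith
  have hn0 : 0 ≤ n := by linarith
  obtain ⟨r, hrdef⟩ : ∃ r : unitInterval → ℝ, r = fun x => ∫ y, Y x y := ⟨_, rfl⟩
  have hr' : ∀ x, (∫ y, Y x y) = r x := fun x => by rw [hrdef]
  have hr : BF r := by rw [hrdef]; exact hY.iter'
  have hr0 : ∀ x, 0 ≤ r x := fun x => by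
    rw [← hr']
    exact integral_nonneg fun y => h0 x y
  have hrt : BF (fun x => r x ^ θ) := hr.rpow hr0 (by linarith)
  have hu : BF (fun x => r x ^ (θ - 1)) := hr.rpow hr0 hθ1.le
  have hu0 : ∀ x, 0 ≤ r x ^ (θ - 1) := fun x => Real.rpow_nonneg (hr0 x) _
  have hup : BF (fun x => max (r x ^ (θ - 1) - 1) 0) := (hu.sub (BF.const 1)).maxz
  have hum : BF (fun x => max (1 - r x ^ (θ - 1)) 0) := ((BF.const 1).sub hu).maxz
  have hrp : BF (fun x => max (r x - 1) 0) := (hr.sub (BF.const 1)).maxz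
  have hrm : BF (fun x => max (1 - r x) 0) := ((BF.const 1).sub hr).maxz
  have hPp : BF (fun x => max (r x ^ θ - 1) 0) := (hrt.sub (BF.const 1)).maxz
  have hPm : BF (fun x => max (1 - r x ^ θ) 0) := ((BF.const 1).sub hrt).maxz
  have hup1 : BF (fun x => 1 + max (r x ^ (θ - 1) - 1) 0) := (BF.const 1).add hup
  have hup0 : ∀ x, 0 ≤ 1 + max (r x ^ (θ - 1) - 1) 0 := fun x =>
    add_nonneg zero_le_one (le_max_right _ _)
  have hδ : BK (fun x y => max (1 - Y x y) 0) := ((BK.const 1).sub hY).maxz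
  have hθδ : BK (fun x y => θ * max (1 - Y x y) 0) := BK.const_mul θ hδ
  have hB : BK (fun x y => max (θ * max (1 - Y x y) 0 - 1) 0) := (hθδ.sub (BK.const 1)).maxz
  -- the integrals
  obtain ⟨ρ, hρ⟩ : ∃ ρ, ρ = ∫ x, max (r x - 1) 0 := ⟨_, rfl⟩
  obtain ⟨μ, hμ⟩ : ∃ μ, μ = ∫ x, max (r x ^ (θ - 1) - 1) 0 := ⟨_, rfl⟩
  obtain ⟨τ, hτ⟩ : ∃ τ, τ = ∫ x, max (1 - r x ^ (θ - 1)) 0 := ⟨_, rfl⟩
  obtain ⟨d, hdd⟩ : ∃ d, d = ∫ x, max (1 - r x) 0 := ⟨_, rfl⟩
  obtain ⟨P, hP⟩ : ∃ P, P = ∫ x, max (r x ^ θ - 1) 0 := ⟨_, rfl⟩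
  obtain ⟨Pm, hPmdef⟩ : ∃ Pm, Pm = ∫ x, max (1 - r x ^ θ) 0 := ⟨_, rfl⟩
  obtain ⟨R, hR⟩ : ∃ R, R = ∫ x, r x ^ θ := ⟨_, rfl⟩
  obtain ⟨E, hE⟩ : ∃ E, E = ∫ x, ∫ y, Dl n (1 + max (r x ^ (θ - 1) - 1) 0)
    (1 + max (r y ^ (θ - 1) - 1) 0) := ⟨_, rfl⟩
  obtain ⟨PY, hPY⟩ : ∃ PY, PY = ∫ x, ∫ y, Y x y ^ θ := ⟨_, rfl⟩
  obtain ⟨Bq, hBq⟩ : ∃ Bq, Bq = ∫ x, ∫ y, max (θ * max (1 - Y x y) 0 - 1) 0 := ⟨_, rfl⟩
  have hρ0 : 0 ≤ ρ := by rw [hρ]; exact integral_nonneg fun x => le_max_right _ _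
  have hμ0 : 0 ≤ μ := by rw [hμ]; exact integral_nonneg fun x => le_max_right _ _
  have hτ0 : 0 ≤ τ := by rw [hτ]; exact integral_nonneg fun x => le_max_right _ _
  have hd0 : 0 ≤ d := by rw [hdd]; exact integral_nonneg fun x => le_max_right _ _
  have hE1 : E ≤ Dl n (1 + μ) (1 + μ) := by
    rw [hE, hμ]
    exact jensen_dl hn1 hn2 hup fun x => le_max_right _ _
  have hE2 : E ≤ n * ρ * μ := by
    have h1 : E ≤ ∫ x, ∫ y, n * (max (r x - 1) 0 * max (r y ^ (θ - 1) - 1) 0) := by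
      rw [hE]
      apply BK.int_mono (BK.Dl hup1 hup0 hn0) (BK.const_mul _ ((BK.left hrp).mul (BK.right hup)))
      intro x y
      have h2 := dl_le_one hn1 hn2 (u := 1 + max (r x ^ (θ - 1) - 1) 0)
        (v := 1 + max (r y ^ (θ - 1) - 1) 0)
        (by have := le_max_right (r x ^ (θ - 1) - 1) 0; linarith) (hup0 y)
      rw [pt_up hθ hn (hr0 x)] at h2
      linarith
    rw [BK.int_mul, BK.int_prod, ← hρ, ← hμ] at h1
    linarith
  have hP1 : ρ + μ ≤ P := by
    rw [hρ, hμ, hP, ← integral_add hrp.integrable hup.integrable]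
    exact integral_mono (hrp.add hup).integrable hPp.integrable fun x => pt_P hθ (hr0 x)
  have hP2 : (1 + μ) ^ n - 1 ≤ P := by
    have h1 : ∫ x, ((1 + μ) ^ n + n * (1 + μ) ^ (n - 1) *
        (max (r x ^ (θ - 1) - 1) 0 - μ) - 1) ≤ P := by
      rw [hP]
      apply integral_mono _ hPp.integrable
      · intro x
        simp only
        rw [pt_Pe hθ hn (hr0 x)]
        have h2 := slk_nonneg hn1 (by linarith : 0 ≤ 1 + μ) (hup0 x)
        unfold slk at h2
        have h3 : (1 + μ) ^ (n - 1) * (1 + μ) = (1 + μ) ^ n := rpow_sub_mul hn1 (by linarith)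
        nlinarith
      · exact ((BF.const _).add ((BF.const_mul _ (hup.sub (BF.const μ)))) |>.sub
          (BF.const 1)).integrable
    rw [integral_sub ((BF.const _).add (BF.const_mul _ (hup.sub (BF.const μ)))).integrable
      (BF.const 1).integrable, integral_add (BF.const _).integrable
      (BF.const_mul _ (hup.sub (BF.const μ))).integrable, integral_const_mul,
      integral_sub hup.integrable (BF.const μ).integrable, ← hμ] at h1
    simpa using h1
  have hPm1 : Pm ≤ τ + d := by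
    rw [hPmdef, hτ, hdd, ← integral_add hum.integrable hrm.integrable]
    exact integral_mono hPm.integrable (hum.add hrm).integrable fun x => pt_Pm hθ (hr0 x)
  have hτd : τ ≤ (θ - 1) * d := by
    rw [hτ, hdd, ← integral_const_mul]
    exact integral_mono hum.integrable (BF.const_mul _ hrm).integrable fun x => pt_um hθ (hr0 x)
  have hτ1 : τ ≤ 1 := by
    have h1 : τ ≤ ∫ _ : unitInterval, (1 : ℝ) := by
      rw [hτ]
      exact integral_mono hum.integrable (BF.const 1).integrable fun x =>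
        max_le (by linarith [hu0 x]) zero_le_one
    simpa using h1
  have hd1 : d ≤ 1 := by
    have h1 : d ≤ ∫ _ : unitInterval, (1 : ℝ) := by
      rw [hdd]
      exact integral_mono hrm.integrable (BF.const 1).integrable fun x =>
        max_le (by linarith [hr0 x]) zero_le_one
    simpa using h1
  have hRP : R = 1 + P - Pm := by
    have h1 : ∀ x, r x ^ θ = 1 + max (r x ^ θ - 1) 0 - max (1 - r x ^ θ) 0 := fun x =>
      pt_split _
    rw [hR]
    calc ∫ x, r x ^ θ = ∫ x, (1 + max (r x ^ θ - 1) 0 - max (1 - r x ^ θ) 0) := by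
          congr 1
          ext x
          exact h1 x
      _ = 1 + P - Pm := by
          rw [integral_sub ((BF.const 1).add hPp).integrable hPm.integrable,
            integral_add (BF.const 1).integrable hPp.integrable, ← hP, ← hPmdef]
          simp
  have hRR : ∫ x, (∫ y, Y x y) ^ θ = R := by
    rw [hR]
    congr 1
    ext x
    rw [hr']
  rw [hRR] at hR0 ⊢
  have hfin := fin2 hθ hn hρ0 hμ0 hτ0 hd0 hE1 hE2 hP1 hP2 hPm1 hRP hR0
  -- the kernel
  have hYt : BK (fun x y => Y x y ^ θ) := hY.rpow h0 (by linarith)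
  have hux : BK (fun x y => r x ^ (θ - 1) * Y x y) := (BK.left hu).mul hY
  have huy : BK (fun x y => r y ^ (θ - 1) * Y x y) := (BK.right hu).mul hY
  have e1 : ∫ x, ∫ y, r x ^ (θ - 1) * Y x y = R := by
    simp only [integral_const_mul]
    rw [hR]
    congr 1
    ext x
    rw [hr']
    exact rpow_sub_mul (by linarith) (hr0 x)
  have e2 : ∫ x, ∫ y, r y ^ (θ - 1) * Y x y = R := by
    rw [← e1]
    have h2 := huy.swap Set.univ Set.univ
    simp only [Measure.restrict_univ] at h2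
    rw [h2]
    simp only [hsym]
  have k1 : BK (fun x y => θ * (r x ^ (θ - 1) * Y x y) +
      (θ * (r y ^ (θ - 1) * Y x y) - θ * Y x y)) :=
    (BK.const_mul θ hux).add ((BK.const_mul θ huy).sub (BK.const_mul θ hY))
  have k2 : BK (fun x y => (θ - 1) * (r x ^ θ + r y ^ θ - 1)) :=
    BK.const_mul (θ - 1) (((BK.left hrt).add (BK.right hrt)).sub (BK.const 1))
  have k3 : BK (fun x y => (θ - 1) * Dl n (1 + max (r x ^ (θ - 1) - 1) 0)
      (1 + max (r y ^ (θ - 1) - 1) 0)) := BK.const_mul (θ - 1) (BK.Dl hup1 hup0 hn0)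
  have k4 : BK (fun x y => θ * (max (r x - 1) 0 * max (1 - r y ^ (θ - 1)) 0)) :=
    BK.const_mul θ ((BK.left hrp).mul (BK.right hum))
  have k5 : BK (fun x y => θ * (max (1 - r x ^ (θ - 1)) 0 * max (r y - 1) 0)) :=
    BK.const_mul θ ((BK.left hum).mul (BK.right hrp))
  have k6 : BK (fun x y => (θ - 1) * (max (1 - r x ^ (θ - 1)) 0 * max (1 - r y) 0)) :=
    BK.const_mul (θ - 1) ((BK.left hum).mul (BK.right hrm))
  have k7 : BK (fun x y => (θ - 1) * (max (1 - r x) 0 * max (1 - r y ^ (θ - 1)) 0)) :=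
    BK.const_mul (θ - 1) ((BK.left hrm).mul (BK.right hum))
  have hker := BK.int_mono k1 (hYt.add (k2.add (((k3.sub (k4.add k5)).add (k6.add k7)).add hB)))
    (fun x y => pt_all hθ hn (hr0 x) (hr0 y) (h0 x y))
  rw [BK.int_add (BK.const_mul θ hux) ((BK.const_mul θ huy).sub (BK.const_mul θ hY)),
    BK.int_sub (BK.const_mul θ huy) (BK.const_mul θ hY), BK.int_mul, BK.int_mul, BK.int_mul,
    e1, e2, ← hm, BK.int_add hYt (k2.add (((k3.sub (k4.add k5)).add (k6.add k7)).add hB)),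
    BK.int_add k2 (((k3.sub (k4.add k5)).add (k6.add k7)).add hB),
    BK.int_add ((k3.sub (k4.add k5)).add (k6.add k7)) hB,
    BK.int_add (k3.sub (k4.add k5)) (k6.add k7), BK.int_sub k3 (k4.add k5), BK.int_add k4 k5,
    BK.int_add k6 k7, BK.int_mul, BK.int_mul, BK.int_mul, BK.int_mul, BK.int_mul, BK.int_mul,
    BK.int_sub ((BK.left hrt).add (BK.right hrt)) (BK.const 1),
    BK.int_add (BK.left hrt) (BK.right hrt), BK.int_left, BK.int_right, BK.int_prod, BK.int_prod,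
    BK.int_prod, BK.int_prod, ← hE, ← hρ, ← hτ, ← hdd, ← hR, ← hPY, ← hBq] at hker
  simp only [integral_const, probReal_univ, smul_eq_mul, one_mul] at hker
  -- the scalar function
  have hphi := phi_le hθ.le hd0 hd1 hτ0 hτ1 hτd
  have hdD : θ * d ≤ ∫ x, ∫ y, θ * max (1 - Y x y) 0 := by
    rw [BK.int_mul]
    apply mul_le_mul_of_nonneg_left _ hθ0.le
    rw [hdd]
    apply integral_mono hrm.integrable hδ.iter'.integrable
    intro x
    simp only
    apply max_le
    · rw [← hr' x]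
      have h1 : ∫ y, (1 - Y x y) ≤ ∫ y, max (1 - Y x y) 0 :=
        integral_mono (((BF.const 1).sub (hY.row x))).integrable (hδ.row x).integrable
          fun y => le_max_left _ _
      rw [integral_sub (BF.const 1).integrable (hY.row x).integrable] at h1
      simpa using h1
    · exact integral_nonneg fun y => le_max_right _ _
  have hJ := hub_int hθδ (fun x y => mul_nonneg hθ0.le (le_max_right _ _))
    (mul_nonneg hθ0.le hd0) hdD
  rw [← hBq, ← hPY]
  linarith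

end Pool.Agent.W_bbc525_e2
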