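import Pool.Agent.W_bbc525_e2.Ds
import Pool.Agent.W_bbc525_ends.SG

/-!
# The pointwise inequality of an edge, ratio larger than two
-/

set_option autoImplicit false

namespace Pool.Agent.W_bbc525_e2

open Pool.Agent.W_bbc525_ends

theorem pt_all {θ n r s Y : ℝ} (hθ : 2 < θ) (hn : n = θ / (θ - 1)) (hr : 0 ≤ r) (hs : 0 ≤ s)
    (hY : 0 ≤ Y) :
    θ * (r ^ (θ - 1) * Y) + (θ * (s ^ (θ - 1) * Y) - θ * Y) ≤
      Y ^ θ + ((θ - 1) * (r ^ θ + s ^ θ - 1) +
      ((θ - 1) * Dl n (1 + max (r ^ (θ - 1) - 1) 0) (1 + max (s ^ (θ - 1) - 1) 0) -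
      (θ * (max (r - 1) 0 * max (1 - s ^ (θ - 1)) 0) +
        θ * (max (1 - r ^ (θ - 1)) 0 * max (s - 1) 0)) +
      ((θ - 1) * (max (1 - r ^ (θ - 1)) 0 * max (1 - s) 0) +
        (θ - 1) * (max (1 - r) 0 * max (1 - s ^ (θ - 1)) 0)) +
      max (θ * max (1 - Y) 0 - 1) 0)) := by
  have hθ1 : 0 < θ - 1 := by linarith
  have hθ0 : 0 < θ := by linarith
  have hn1 : 1 < n := by
    rw [hn, lt_div_iff₀ hθ1]
    linarith
  have hn2 : n ≤ 2 := by
    rw [hn, div_le_iff₀ hθ1]
    linarith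
  have hnθ : (θ - 1) * n = θ := by
    rw [hn]
    field_simp
  obtain ⟨hr1, hr2⟩ := pt_pow hθ hn hr
  obtain ⟨hs1, hs2⟩ := pt_pow hθ hn hs
  have hu0 : 0 ≤ r ^ (θ - 1) := Real.rpow_nonneg hr _
  have hv0 : 0 ≤ s ^ (θ - 1) := Real.rpow_nonneg hs _
  have hB : 0 ≤ max (θ * max (1 - Y) 0 - 1) 0 := le_max_right _ _
  -- Young
  have hyoung : θ * (r ^ (θ - 1) + s ^ (θ - 1) - 1) * Y ≤ Y ^ θ + (θ - 1) *
      max (r ^ (θ - 1) + s ^ (θ - 1) - 1) 0 ^ n := by
    have h := young_w (w := r ^ (θ - 1) + s ^ (θ - 1) - 1) (by linarith : 1 < θ) hY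
    rw [← hn] at h
    linarith
  have hD : (θ - 1) * max (r ^ (θ - 1) + s ^ (θ - 1) - 1) 0 ^ n =
      (θ - 1) * (r ^ θ + s ^ θ - 1) + (θ - 1) * Dl n (r ^ (θ - 1)) (s ^ (θ - 1)) := by
    unfold Dl
    rw [hr2, hs2]
    ring
  have hred : θ * (r ^ (θ - 1) * Y) + (θ * (s ^ (θ - 1) * Y) - θ * Y) ≤
      Y ^ θ + ((θ - 1) * (r ^ θ + s ^ θ - 1) + (θ - 1) * Dl n (r ^ (θ - 1)) (s ^ (θ - 1))) := by
    rw [← hD]
    linarith
  rcases le_or_gt 1 r with h | h
  · have hu : 1 ≤ r ^ (θ - 1) := Real.one_le_rpow h (by linarith)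
    rw [max_eq_left (by linarith : 0 ≤ r ^ (θ - 1) - 1), max_eq_left (by linarith : 0 ≤ r - 1),
      max_eq_right (by linarith : 1 - r ^ (θ - 1) ≤ 0), max_eq_right (by linarith : 1 - r ≤ 0)]
    have e1 : 1 + (r ^ (θ - 1) - 1) = r ^ (θ - 1) := by ring
    rw [e1]
    rcases le_or_gt 1 s with h' | h'
    · have hv : 1 ≤ s ^ (θ - 1) := Real.one_le_rpow h' (by linarith)
      rw [max_eq_left (by linarith : 0 ≤ s ^ (θ - 1) - 1),
        max_eq_right (by linarith : 1 - s ^ (θ - 1) ≤ 0)]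
      have e2 : 1 + (s ^ (θ - 1) - 1) = s ^ (θ - 1) := by ring
      rw [e2]
      linarith
    · have hv : s ^ (θ - 1) ≤ 1 := Real.rpow_le_one hs h'.le (by linarith)
      rw [max_eq_right (by linarith : s ^ (θ - 1) - 1 ≤ 0),
        max_eq_left (by linarith : 0 ≤ 1 - s ^ (θ - 1)), add_zero, Dl_one n (by linarith)]
      have h1 := dl_le_one hn1 hn2 hu hv0
      rw [hr1] at h1
      have h2 := mul_le_mul_of_nonneg_left h1 hθ1.le
      have e3 : (θ - 1) * (n * (r - 1) * (s ^ (θ - 1) - 1)) =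
          -(θ * ((r - 1) * (1 - s ^ (θ - 1)))) := by
        have : (θ - 1) * (n * (r - 1) * (s ^ (θ - 1) - 1)) =
          ((θ - 1) * n) * ((r - 1) * (s ^ (θ - 1) - 1)) := by ring
        rw [this, hnθ]
        ring
      rw [e3] at h2
      linarith
  · have hu : r ^ (θ - 1) ≤ 1 := Real.rpow_le_one hr h.le (by linarith)
    rw [max_eq_right (by linarith : r ^ (θ - 1) - 1 ≤ 0), max_eq_right (by linarith : r - 1 ≤ 0),
      max_eq_left (by linarith : 0 ≤ 1 - r ^ (θ - 1)), max_eq_left (by linarith : 0 ≤ 1 - r),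
      add_zero]
    rcases le_or_gt 1 s with h' | h'
    · have hv : 1 ≤ s ^ (θ - 1) := Real.one_le_rpow h' (by linarith)
      rw [max_eq_left (by linarith : 0 ≤ s ^ (θ - 1) - 1), max_eq_left (by linarith : 0 ≤ s - 1),
        max_eq_right (by linarith : 1 - s ^ (θ - 1) ≤ 0),
        max_eq_right (by linarith : 1 - s ≤ 0), Dl_symm n 1, Dl_one n (by linarith)]
      have h1 := dl_le_one hn1 hn2 hv hu0
      rw [hs1, Dl_symm] at h1
      have h2 := mul_le_mul_of_nonneg_left h1 hθ1.le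
      have e3 : (θ - 1) * (n * (s - 1) * (r ^ (θ - 1) - 1)) =
          -(θ * ((1 - r ^ (θ - 1)) * (s - 1))) := by
        have : (θ - 1) * (n * (s - 1) * (r ^ (θ - 1) - 1)) =
          ((θ - 1) * n) * ((s - 1) * (r ^ (θ - 1) - 1)) := by ring
        rw [this, hnθ]
        ring
      rw [e3] at h2
      linarith
    · have hv : s ^ (θ - 1) ≤ 1 := Real.rpow_le_one hs h'.le (by linarith)
      rw [max_eq_right (by linarith : s ^ (θ - 1) - 1 ≤ 0),
        max_eq_left (by linarith : 0 ≤ 1 - s ^ (θ - 1)), max_eq_right (by linarith : s - 1 ≤ 0),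
        max_eq_left (by linarith : 0 ≤ 1 - s), add_zero, Dl_one n (by norm_num)]
      rcases le_or_gt 1 (r ^ (θ - 1) + s ^ (θ - 1)) with hw | hw
      · have h1 := dl_small (k := n - 1) (by linarith) (by linarith) hu0 hu hv0 hv hw
        rw [show 1 + (n - 1) = n by ring, hr1, hs1] at h1
        have h2 := mul_le_mul_of_nonneg_left h1 hθ1.le
        linarith
      · -- `w < 0`
        have hrr : r ^ θ = r ^ (θ - 1) * r := (rpow_sub_mul (by linarith) hr).symm
        have hss : s ^ θ = s ^ (θ - 1) * s := (rpow_sub_mul (by linarith) hs).symm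
        rw [hrr, hss]
        set u := r ^ (θ - 1)
        set v := s ^ (θ - 1)
        have hYθ : 0 ≤ Y ^ θ := Real.rpow_nonneg hY _
        have hW0 : 0 < 1 - u - v := by linarith
        have hW1 : 1 - u - v ≤ 1 := by linarith
        -- `(θ-1) W (r + s - 1) - θ W Y ≤ B`
        have hkey : (θ - 1) * (1 - u - v) * (r + s - 1) - θ * (1 - u - v) * Y ≤
            max (θ * max (1 - Y) 0 - 1) 0 := by
          have h1 : (θ - 1) * (1 - u - v) * (r + s - 1) ≤ (θ - 1) * (1 - u - v) * 1 :=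
            mul_le_mul_of_nonneg_left (by linarith) (by positivity)
          have h2 : θ * (1 - Y) - 1 ≤ θ * max (1 - Y) 0 - 1 := by
            have := mul_le_mul_of_nonneg_left (le_max_left (1 - Y) 0) hθ0.le
            linarith
          have h3 : (1 - u - v) * (θ * (1 - Y) - 1) ≤ max (θ * max (1 - Y) 0 - 1) 0 := by
            rcases le_or_gt 0 (θ * (1 - Y) - 1) with h4 | h4
            · calc (1 - u - v) * (θ * (1 - Y) - 1) ≤ 1 * (θ * (1 - Y) - 1) :=
                    mul_le_mul_of_nonneg_right hW1 h4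
                _ ≤ θ * max (1 - Y) 0 - 1 := by linarith
                _ ≤ _ := le_max_left _ _
            · exact le_trans (mul_nonpos_of_nonneg_of_nonpos hW0.le h4.le) (le_max_right _ _)
          have e : (1 - u - v) * (θ * (1 - Y) - 1) =
              (θ - 1) * (1 - u - v) * 1 - θ * (1 - u - v) * Y := by ring
          linarith
        have e : (θ - 1) * (u * r + v * s - 1) + (((θ - 1) * 0 - (θ * (0 * (1 - v)) +
            θ * ((1 - u) * 0)) + ((θ - 1) * ((1 - u) * (1 - s)) +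
            (θ - 1) * ((1 - r) * (1 - v)))) + max (θ * max (1 - Y) 0 - 1) 0) =
            - ((θ - 1) * (1 - u - v) * (r + s - 1)) + max (θ * max (1 - Y) 0 - 1) 0 := by ring
        rw [e]
        have e2 : θ * (u * Y) + (θ * (v * Y) - θ * Y) = - (θ * (1 - u - v) * Y) := by ring
        rw [e2]
        linarith

end Pool.Agent.W_bbc525_e2
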